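import Pool.Agent.Lib.SM.C.Ext

/-!
# Reciprocity for `H^2(K, ZMod 2)`, module Cyc: a class which splits over a cyclic extension

`f` a 2-cocycle of `G` with values in `A`, `H` a normal subgroup, `G / H` cyclic of order `n` generated
by `σ` (`g = u σ ^ (ex g)`, `u ∈ H`, `ex g < n`), `f` a coboundary on `H`. Then (Hilbert 90)
`f g h = (a or 1) * (B g * g B(h) / B(g h))` with `a` fixed by `G`, `a` occurring iff
`n ≤ ex g + ex h`, and `B` is constant on the cosets of `N`.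
-/

set_option autoImplicit false

open Pool.Agent.SmithC

namespace Pool.Agent.SmN.R

variable {G A : Type*} [Group G] [CommGroup A] {φ : G →* MulAut A} {f : G → G → A}

/-- `g = u σ ^ (ex g)` with `u ∈ H`, `ex g < n`, uniquely. -/
structure Expo (H : Subgroup G) (n : ℕ) (σ : G) (ex : G → ℕ) : Prop where
  lt : ∀ g, ex g < n
  mem : ∀ g, g * (σ ^ ex g)⁻¹ ∈ H
  uniq : ∀ (g : G) (i : ℕ), i < n → g * (σ ^ i)⁻¹ ∈ H → ex g = i
  pow : σ ^ n ∈ H

open EGrp in
/-- The structure of a class which splits over a cyclic extension. -/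
theorem cyc (hf : IsTwoCoc φ f) (H N : Subgroup G) [hH : H.Normal] [hN : N.Normal] (hNH : N ≤ H)
    (hfN : ∀ s t, ∀ n ∈ N, ∀ m ∈ N, f (s * n) (t * m) = f s t) (hf1 : f 1 1 = 1)
    {b : G → A} (hb : ∀ g ∈ H, ∀ h ∈ H, f g h = b g * φ g (b h) * (b (g * h))⁻¹)
    (hbN : ∃ x, ∀ n ∈ N, b n = φ n x * x⁻¹)
    (h90 : ∀ l : G → A, (∀ h ∈ H, ∀ n ∈ N, l (h * n) = l h) →
      (∀ h ∈ H, ∀ h' ∈ H, l (h * h') = l h * φ h (l h')) → ∃ y, ∀ h ∈ H, l h = φ h y * y⁻¹)
    {n : ℕ} {σ : G} {ex : G → ℕ} (he : Expo H n σ ex) :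
    ∃ (a : A) (B : G → A), (∀ g, φ g a = a) ∧ (∀ g, ∀ m ∈ N, B (g * m) = B g) ∧
      ∀ g h, f g h = (if n ≤ ex g + ex h then a else 1) * (B g * φ g (B h) * (B (g * h))⁻¹) := by
  obtain ⟨x, hx⟩ := hbN
  -- the normalised splitting
  obtain ⟨b', hb', hb'N⟩ : ∃ b' : G → A,
      (∀ g ∈ H, ∀ h ∈ H, f g h = b' g * φ g (b' h) * (b' (g * h))⁻¹) ∧ ∀ m ∈ N, b' m = 1 := by
    refine ⟨fun g => b g * (x * (φ g x)⁻¹), fun g hg h hh => ?_, fun m hm => ?_⟩
    · rw [hb g hg h hh]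
      simp only [map_mul, map_inv, MulAut.mul_apply, mul_inv_rev, inv_inv]
      have e : φ g x * (φ g x)⁻¹ = 1 := mul_inv_cancel _
      have e2 : (φ g) ((φ h) x) * ((φ g) ((φ h) x))⁻¹ = 1 := mul_inv_cancel _
      have e3 : x * x⁻¹ = 1 := mul_inv_cancel _
      calc b g * (φ g) (b h) * (b (g * h))⁻¹ = b g * (φ g) (b h) * (b (g * h))⁻¹ *
            ((φ g x * (φ g x)⁻¹) * ((φ g) ((φ h) x) * ((φ g) ((φ h) x))⁻¹) * (x * x⁻¹)) := by
            rw [e, e2, e3, mul_one, mul_one, mul_one]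
        _ = _ := by
            simp only [mul_comm, mul_left_comm, mul_assoc]
    · beta_reduce
      rw [hx m hm]
      calc φ m x * x⁻¹ * (x * (φ m x)⁻¹) = (φ m x * (φ m x)⁻¹) * (x⁻¹ * x) := by
            simp only [mul_comm, mul_left_comm, mul_assoc]
        _ = 1 := by rw [mul_inv_cancel, inv_mul_cancel, mul_one]
  -- the section over `H`
  set s : G → EGrp hf := fun g => mk hf (b' g)⁻¹ g with hs
  have hsm : ∀ g ∈ H, ∀ h ∈ H, s (g * h) = s g * s h := section_mul hf H b' hb'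
  have hs2 : ∀ g, (s g).snd = g := fun g => rfl
  set T : G → EGrp hf := fun g => mk hf 1 g with hT
  have hTN : ∀ m ∈ N, s m = T m := fun m hm => by
    rw [hs, hT]
    beta_reduce
    rw [hb'N m hm, inv_one]
  have hfgn : ∀ g, ∀ m ∈ N, f g m = 1 := fun g m hm => by
    have h1 := hfN g 1 1 N.one_mem m hm
    rw [mul_one, one_mul] at h1
    rw [h1, hf.one_right, hf1, map_one]
  have hfng : ∀ g, ∀ m ∈ N, f m g = 1 := fun g m hm => by
    have h1 := hfN 1 g m hm 1 N.one_mem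
    rw [mul_one, one_mul] at h1
    rw [h1, hf.one_left, hf1]
  -- `T (g m) = T g * T m`
  have hTgn : ∀ g, ∀ m ∈ N, T (g * m) = T g * T m := fun g m hm => by
    apply ext'
    · rw [fst_mul]
      change (1 : A) = 1 * φ g 1 * f g m
      rw [hfgn g m hm, map_one, mul_one, mul_one]
    · rfl
  have hTng : ∀ g, ∀ m ∈ N, T (m * g) = T m * T g := fun g m hm => by
    apply ext'
    · rw [fst_mul]
      change (1 : A) = 1 * φ m 1 * f m g
      rw [hfng g m hm, map_one, mul_one, mul_one]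
    · rfl
  have hconjH : ∀ g h, h ∈ H → g⁻¹ * h * g ∈ H := fun g h hh => by
    have := hH.conj_mem h hh g⁻¹
    rwa [inv_inv] at this
  have hconjN : ∀ g h, h ∈ N → g⁻¹ * h * g ∈ N := fun g h hh => by
    have := hN.conj_mem h hh g⁻¹
    rwa [inv_inv] at this
  have hsnd : ∀ (y z : EGrp hf), (y * z).snd = y.snd * z.snd := fun y z => rfl
  have hsndi : ∀ (y : EGrp hf), (y⁻¹).snd = y.snd⁻¹ := fun y => rfl
  have hinc : ∀ u v : EGrp hf, u.snd = v.snd → ∃ c, u = incl hf c * v := fun u v huv =>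
    ⟨_, exists_incl hf u v huv⟩
  -- the defect of `T σ`
  have hl : ∀ h, ∃ c, T σ * s (σ⁻¹ * h * σ) * (T σ)⁻¹ = incl hf c * s h := fun h => by
    apply hinc
    change σ * (σ⁻¹ * h * σ) * σ⁻¹ = h
    group
  choose l hl using hl
  have hsinv : ∀ h ∈ H, ∀ h' ∈ H, σ⁻¹ * (h * h') * σ = (σ⁻¹ * h * σ) * (σ⁻¹ * h' * σ) :=
    fun h _ h' _ => by group
  have hlc : ∀ h ∈ H, ∀ h' ∈ H, l (h * h') = l h * φ h (l h') := by
    intro h hh h' hh'
    apply incl_inj hf
    have h1 := hl (h * h')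
    rw [hsinv h hh h' hh', hsm _ (hconjH σ h hh) _ (hconjH σ h' hh'), hsm h hh h' hh'] at h1
    have h2 : T σ * (s (σ⁻¹ * h * σ) * s (σ⁻¹ * h' * σ)) * (T σ)⁻¹ =
        (T σ * s (σ⁻¹ * h * σ) * (T σ)⁻¹) * (T σ * s (σ⁻¹ * h' * σ) * (T σ)⁻¹) := by group
    rw [h2, hl h, hl h'] at h1
    have h3 : incl hf (l h) * s h * (incl hf (l h') * s h') =
        incl hf (l h) * (s h * incl hf (l h')) * s h' := by group
    rw [h3, mul_incl, hs2, ← mul_assoc] at h1
    have h4 : incl hf (l h) * incl hf (φ h (l h')) * s h * s h' =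
        (incl hf (l h) * incl hf (φ h (l h'))) * (s h * s h') := by group
    rw [h4, ← map_mul] at h1
    exact (mul_right_cancel h1).symm
  have hlN : ∀ m ∈ N, l m = 1 := by
    intro m hm
    apply incl_inj hf
    have h1 := hl m
    rw [hTN _ (hconjN σ m hm), hTN m hm] at h1
    have h2 : T σ * T (σ⁻¹ * m * σ) = T m * T σ := by
      rw [← hTgn σ _ (hconjN σ m hm), ← hTng σ m hm]
      congr 1
      group
    rw [h2, mul_inv_cancel_right] at h1
    rw [map_one]
    exact (mul_eq_right.1 h1.symm)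
  obtain ⟨y, hy⟩ := h90 l (fun h hh m hm => by
    rw [hlc h hh m (hNH hm), hlN m hm, map_one, mul_one]) hlc
  -- the new generator
  set F : EGrp hf := incl hf y * T σ with hF
  have hF2 : F.snd = σ := by
    rw [hF, hsnd, snd_incl, one_mul]
    rfl
  have hFc : ∀ h ∈ H, F * s (σ⁻¹ * h * σ) * F⁻¹ = s h := by
    intro h hh
    have h1 : F * s (σ⁻¹ * h * σ) * F⁻¹ =
        incl hf y * (T σ * s (σ⁻¹ * h * σ) * (T σ)⁻¹) * (incl hf y)⁻¹ := by
      rw [hF]; group
    rw [h1, hl h, hy h hh]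
    have h2 : incl hf y * (incl hf (φ h y * y⁻¹) * s h) * (incl hf y)⁻¹ =
        incl hf y * incl hf (φ h y * y⁻¹) * (s h * incl hf y⁻¹) := by
      rw [map_inv]; group
    rw [h2, mul_incl hf (s h), hs2, ← mul_assoc, ← map_mul, ← map_mul]
    have h3 : y * (φ h y * y⁻¹) * φ h y⁻¹ = 1 := by
      rw [map_inv]
      calc y * (φ h y * y⁻¹) * (φ h y)⁻¹ = (y * y⁻¹) * (φ h y * (φ h y)⁻¹) := by
            simp only [mul_comm, mul_left_comm, mul_assoc]
        _ = 1 := by rw [mul_inv_cancel, mul_inv_cancel, one_mul]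
    rw [h3, map_one, one_mul]
  have hFp : ∀ (i : ℕ), ∀ h ∈ H, F ^ i * s h = s (σ ^ i * h * (σ ^ i)⁻¹) * F ^ i := by
    intro i
    induction i with
    | zero => intro h _; simp
    | succ i ih =>
      intro h hh
      have h0 : σ ^ i * h * (σ ^ i)⁻¹ ∈ H := hH.conj_mem h hh _
      have h1 := hFc (σ ^ (i + 1) * h * (σ ^ (i + 1))⁻¹) (hH.conj_mem h hh _)
      have h2 : σ⁻¹ * (σ ^ (i + 1) * h * (σ ^ (i + 1))⁻¹) * σ = σ ^ i * h * (σ ^ i)⁻¹ := by
        rw [pow_succ']; group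
      rw [h2, mul_inv_eq_iff_eq_mul] at h1
      rw [pow_succ', mul_assoc, ih h hh, ← mul_assoc, h1, mul_assoc]
  have hFn2 : ∀ i : ℕ, (F ^ i).snd = σ ^ i := by
    intro i
    induction i with
    | zero => rw [pow_zero, pow_zero]; rfl
    | succ i ih => rw [pow_succ, hsnd, ih, hF2, pow_succ]
  obtain ⟨a, ha⟩ := hinc (F ^ n) (s (σ ^ n)) (hFn2 n)
  -- `a` is fixed
  have haH : ∀ h ∈ H, φ h a = a := by
    intro h hh
    have h1 := hFp n (σ ^ n)⁻¹ (H.inv_mem he.pow)
    have h2 := hFp n ((σ ^ n)⁻¹ * h * σ ^ n) (hconjH _ h hh)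
    have h3 : σ ^ n * ((σ ^ n)⁻¹ * h * σ ^ n) * (σ ^ n)⁻¹ = h := by group
    rw [h3, ha, hsm _ (H.mul_mem (H.inv_mem he.pow) hh) _ he.pow,
      hsm _ (H.inv_mem he.pow) _ hh] at h2
    have h4 : s (σ ^ n) * s (σ ^ n)⁻¹ = 1 := by
      have h5 := hsm _ he.pow _ (H.inv_mem he.pow)
      rw [mul_inv_cancel] at h5
      rw [← h5]
      have h6 := hsm 1 H.one_mem 1 H.one_mem
      rw [mul_one] at h6
      exact left_eq_mul.1 h6
    have h5 : incl hf a * s (σ ^ n) * (s (σ ^ n)⁻¹ * s h * s (σ ^ n)) =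
        incl hf a * (s (σ ^ n) * s (σ ^ n)⁻¹) * s h * s (σ ^ n) := by group
    rw [h5, h4, mul_one, ← mul_assoc, mul_incl, hs2] at h2
    exact (incl_inj hf (mul_right_cancel (mul_right_cancel h2))).symm
  have haσ : φ σ a = a := by
    have h1 : F * F ^ n = F ^ n * F := by rw [← pow_succ, ← pow_succ']
    have h2 := hFp 1 (σ ^ n) he.pow
    rw [pow_one, pow_one] at h2
    have h3 : σ * σ ^ n * σ⁻¹ = σ ^ n := by
      rw [← pow_succ', pow_succ]; group
    rw [h3] at h2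
    rw [ha, ← mul_assoc, mul_incl, hF2, mul_assoc, h2, mul_assoc] at h1
    exact incl_inj hf (mul_right_cancel h1)
  have haσi : ∀ i : ℕ, φ (σ ^ i) a = a := by
    intro i
    induction i with
    | zero => rw [pow_zero, map_one, MulAut.one_apply]
    | succ i ih => rw [pow_succ, map_mul, MulAut.mul_apply, haσ, ih]
  have hag : ∀ g, φ g a = a := by
    intro g
    have h1 : g = g * (σ ^ ex g)⁻¹ * σ ^ ex g := by group
    rw [h1, map_mul, MulAut.mul_apply, haσi, haH _ (he.mem g)]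
  -- the section
  set R : G → EGrp hf := fun g => s (g * (σ ^ ex g)⁻¹) * F ^ ex g with hR
  have hR2 : ∀ g, (R g).snd = g := by
    intro g
    change g * (σ ^ ex g)⁻¹ * (F ^ ex g).snd = g
    rw [hFn2, inv_mul_cancel_right]
  have hcom : ∀ z : EGrp hf, z * incl hf a = incl hf a * z := fun z => by
    rw [mul_incl, hag]
  have hRR : ∀ g h, R g * R h = incl hf (if n ≤ ex g + ex h then a else 1) * R (g * h) := by
    intro g h
    set u := g * (σ ^ ex g)⁻¹ with hu
    set u' := h * (σ ^ ex h)⁻¹ with hu'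
    have huH : u ∈ H := he.mem g
    have huH' : u' ∈ H := he.mem h
    have hcH : σ ^ ex g * u' * (σ ^ ex g)⁻¹ ∈ H := hH.conj_mem _ huH' _
    have h1 : R g * R h = s (u * (σ ^ ex g * u' * (σ ^ ex g)⁻¹)) * F ^ (ex g + ex h) := by
      change s u * F ^ ex g * (s u' * F ^ ex h) = _
      have h2 : s u * F ^ ex g * (s u' * F ^ ex h) = s u * (F ^ ex g * s u') * F ^ ex h := by group
      rw [h2, hFp _ _ huH', hsm u huH _ hcH, pow_add]
      group
    have hprod : u * (σ ^ ex g * u' * (σ ^ ex g)⁻¹) = g * h * (σ ^ (ex g + ex h))⁻¹ := by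
      rw [hu, hu', pow_add]; group
    rw [h1, hprod]
    by_cases hn : n ≤ ex g + ex h
    · rw [if_pos hn]
      obtain ⟨i, hi⟩ := Nat.exists_eq_add_of_le hn
      have hi' : i < n := by
        have := he.lt g
        have := he.lt h
        omega
      have hmem : g * h * (σ ^ i)⁻¹ ∈ H := by
        have h3 : g * h * (σ ^ i)⁻¹ = g * h * (σ ^ (ex g + ex h))⁻¹ * σ ^ n := by
          rw [hi, pow_add]; group
        rw [h3, ← hprod]
        exact H.mul_mem (H.mul_mem huH hcH) he.pow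
      have hex : ex (g * h) = i := he.uniq _ i hi' hmem
      have h4 : R (g * h) = s (g * h * (σ ^ (ex g + ex h))⁻¹) * s (σ ^ n) * F ^ i := by
        rw [hR]
        beta_reduce
        rw [hex, ← hsm _ (by rw [← hprod]; exact H.mul_mem huH hcH) _ he.pow]
        congr 2
        rw [hi, pow_add]; group
      rw [h4, hi, pow_add F n i, ha]
      have h5 : s (g * h * (σ ^ (n + i))⁻¹) * (incl hf a * s (σ ^ n) * F ^ i) =
          (s (g * h * (σ ^ (n + i))⁻¹) * incl hf a) * s (σ ^ n) * F ^ i := by group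
      have h6 : s (g * h * (σ ^ (n + i))⁻¹) * (incl hf a * s (σ ^ n) * F ^ i) =
          incl hf a * (s (g * h * (σ ^ (n + i))⁻¹) * s (σ ^ n) * F ^ i) := by
        rw [h5, hcom]
        group
      exact h6
    · rw [if_neg hn, map_one, one_mul]
      have hmem : g * h * (σ ^ (ex g + ex h))⁻¹ ∈ H := by
        rw [← hprod]; exact H.mul_mem huH hcH
      have hex : ex (g * h) = ex g + ex h := he.uniq _ _ (by omega) hmem
      rw [hR]
      beta_reduce
      rw [hex]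
  refine ⟨a, fun g => (R g).fst⁻¹, hag, fun g m hm => ?_, fun g h => ?_⟩
  · -- `R (g m) = R g * T m`
    have hexm : ex (g * m) = ex g := by
      refine he.uniq _ _ (he.lt g) ?_
      have h1 : g * m * (σ ^ ex g)⁻¹ = (g * (σ ^ ex g)⁻¹) * (σ ^ ex g * m * (σ ^ ex g)⁻¹) := by
        group
      rw [h1]
      exact H.mul_mem (he.mem g) (hH.conj_mem _ (hNH hm) _)
    have h2 : R (g * m) = R g * T m := by
      rw [← hTN m hm]
      change s (g * m * (σ ^ ex (g * m))⁻¹) * F ^ ex (g * m) =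
        s (g * (σ ^ ex g)⁻¹) * F ^ ex g * s m
      rw [hexm, mul_assoc _ (F ^ ex g), hFp _ _ (hNH hm), ← mul_assoc,
        ← hsm _ (he.mem g) _ (hH.conj_mem _ (hNH hm) _)]
      congr 2
      group
    beta_reduce
    rw [h2, fst_mul]
    change ((R g).fst * φ (R g).snd 1 * f (R g).snd m)⁻¹ = _
    rw [hfgn _ m hm, map_one, mul_one, mul_one]
  · have h1 := congrArg fst (hRR g h)
    rw [fst_mul, hR2, hR2, incl_mul, fst_mk] at h1
    beta_reduce
    rw [map_inv, inv_inv]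
    have key : ∀ p q r c z : A, p * q * z = c * r → z = c * (p⁻¹ * q⁻¹ * r) := by
      intro p q r c z hz
      have e1 : p * q * (c * (p⁻¹ * q⁻¹ * r)) = p * q * z := by
        rw [hz, mul_left_comm, ← mul_assoc (p * q), ← mul_inv, mul_inv_cancel, one_mul]
      exact (mul_left_cancel e1).symm
    exact key _ _ _ _ _ h1

end Pool.Agent.SmN.R
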