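import Pool.Agent.Lib.SmN.R.Two
import Pool.Agent.Lib.SmN.R.Cyc

/-!
# Reciprocity for `H^2(K, ZMod 2)`, module LocU: the local invariant of a class which splits over a
cyclic extension

`f g h = (a or 1) * (B g * g B(h) / B(g h))`; `invU sg ph q f` is computed from `B sg`, `B ph`
(`invU_eq`); the values of `B` on the decomposition group are given by `val_B`; `loc_sign`: if
`invU ^ 2 = 1` then `invU = (-1) ^ D`, `2 ^ j D = 2 A (ex ph)`, `A = v(a)`, `n = 2 ^ j m'`.
-/

set_option autoImplicit false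

open IsLocalRing Finset

namespace Pool.Agent.SmN.R

open Pool.Agent.GBU Pool.Agent.Lib.SmD Pool.Agent.SmD

/-- The invariant, multiplicatively. -/
def invU {G A : Type*} [Group G] [CommGroup A] (sg ph : G) (q : ℕ) (f : G → G → A) : A :=
  f ph sg * (f (sg ^ q) ph)⁻¹ * (∏ i ∈ Ico 1 q, f (sg ^ i) sg)⁻¹

/-- The shape of `f` given by `cyc`. -/
def Shape {G A : Type*} [Group G] [CommGroup A] [MulDistribMulAction G A] (f : G → G → A) (a : A)
    (B : G → A) (n : ℕ) (ex : G → ℕ) : Prop :=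
  ∀ g h, f g h = (if n ≤ ex g + ex h then a else 1) * (B g * g • B h * (B (g * h))⁻¹)

section abs

variable {G A : Type*} [Group G] [CommGroup A] [MulDistribMulAction G A] {f : G → G → A} {a : A}
  {B : G → A} {n : ℕ} {ex : G → ℕ}

theorem Expo.mul {H : Subgroup G} [hH : H.Normal] {σ : G} (he : Expo H n σ ex) (g h : G) :
    ex (g * h) = if n ≤ ex g + ex h then ex g + ex h - n else ex g + ex h := by
  have hg := he.mem g
  have hh := he.mem h
  have hc : σ ^ ex g * (h * (σ ^ ex h)⁻¹) * (σ ^ ex g)⁻¹ ∈ H := hH.conj_mem _ hh _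
  have h1 : g * h * (σ ^ (ex g + ex h))⁻¹ ∈ H := by
    have h2 : g * h * (σ ^ (ex g + ex h))⁻¹ =
        g * (σ ^ ex g)⁻¹ * (σ ^ ex g * (h * (σ ^ ex h)⁻¹) * (σ ^ ex g)⁻¹) := by
      rw [pow_add]; group
    rw [h2]
    exact H.mul_mem hg hc
  split_ifs with hn
  · obtain ⟨i, hi⟩ := Nat.exists_eq_add_of_le hn
    have := he.lt g
    have := he.lt h
    rw [hi, Nat.add_sub_cancel_left]
    refine he.uniq _ _ (by omega) ?_
    have h3 : g * h * (σ ^ i)⁻¹ = g * h * (σ ^ (ex g + ex h))⁻¹ * σ ^ n := by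
      rw [hi, pow_add]; group
    rw [h3]
    exact H.mul_mem h1 he.pow
  · exact he.uniq _ _ (by omega) h1

theorem Expo.zero_of_mem {H : Subgroup G} {σ : G} (he : Expo H n σ ex) {g : G} (hg : g ∈ H) :
    ex g = 0 :=
  he.uniq g 0 (lt_of_le_of_lt (Nat.zero_le _) (he.lt g)) (by rwa [pow_zero, inv_one, mul_one])

/-- The invariant in terms of `B`. -/
theorem invU_eq (hT : Shape f a B n ex) {sg ph : G} {q : ℕ} (hq : 1 ≤ q)
    (hex : ∀ i, ex (sg ^ i) = 0) (hlt : ∀ g, ex g < n)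
    (hrel : B (ph * sg) = B (sg ^ q * ph)) :
    invU sg ph q f =
      B ph * (sg ^ q • B ph)⁻¹ * (ph • B sg) * (∏ i ∈ range q, sg ^ i • B sg)⁻¹ := by
  have hsg : ex sg = 0 := by
    have := hex 1
    rwa [pow_one] at this
  have hf1 : ∀ g, f g sg = B g * g • B sg * (B (g * sg))⁻¹ := fun g => by
    rw [hT g sg, hsg, add_zero, if_neg (not_le.2 (hlt g)), one_mul]
  have hf2 : f (sg ^ q) ph = B (sg ^ q) * sg ^ q • B ph * (B (sg ^ q * ph))⁻¹ := by
    rw [hT, hex, zero_add, if_neg (not_le.2 (hlt ph)), one_mul]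
  have key : ∀ m : ℕ, ∏ i ∈ Ico 1 (m + 1), f (sg ^ i) sg =
      (∏ i ∈ range (m + 1), sg ^ i • B sg) * (B (sg ^ (m + 1)))⁻¹ := by
    intro m
    induction m with
    | zero => simp
    | succ m ih =>
      rw [prod_Ico_succ_top (by omega), ih, hf1, ← pow_succ,
        prod_range_succ (fun i => sg ^ i • B sg) (m + 1)]
      have h1 : ∀ P b c d : A, P * b⁻¹ * (b * c * d⁻¹) = P * c * d⁻¹ := fun P b c d => by
        rw [mul_assoc P, ← mul_assoc b⁻¹, ← mul_assoc b⁻¹, inv_mul_cancel, one_mul, mul_assoc]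
      exact h1 _ _ _ _
  obtain ⟨m, rfl⟩ : ∃ m, q = m + 1 := ⟨q - 1, by omega⟩
  unfold invU
  rw [key, hf1, hf2, hrel]
  have h1 : ∀ p x d b s P : A, p * x * d⁻¹ * (b * s * d⁻¹)⁻¹ * (P * b⁻¹)⁻¹ =
      p * s⁻¹ * x * P⁻¹ := by
    intro p x d b s P
    simp only [mul_inv, inv_inv]
    have e1 : p * x * d⁻¹ * (b⁻¹ * s⁻¹ * d) * (P⁻¹ * b) =
        p * s⁻¹ * x * P⁻¹ * (d⁻¹ * d) * (b⁻¹ * b) := by
      simp only [mul_comm, mul_left_comm, mul_assoc]
    rw [e1, inv_mul_cancel, inv_mul_cancel, mul_one, mul_one]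
  exact h1 _ _ _ _ _ _

end abs

section val

variable {K Om : Type*} [Field K] [Field Om] [Algebra K Om] [Algebra.IsAlgebraic K Om]
  {w : ValuationSubring Om} {f : (Om ≃ₐ[K] Om) → (Om ≃ₐ[K] Om) → Omˣ} {a : Omˣ}
  {B : (Om ≃ₐ[K] Om) → Omˣ} {n : ℕ} {ex : (Om ≃ₐ[K] Om) → ℕ}

/-- The values of `B` on the decomposition group. -/
theorem val_B (hT : Shape f a B n ex) {H N : Subgroup (Om ≃ₐ[K] Om)} [hH : H.Normal]
    [hN : N.Normal] [hNf : N.FiniteIndex] (hNH : N ≤ H) {σ : Om ≃ₐ[K] Om} (he : Expo H n σ ex)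
    (hBN : ∀ g, ∀ m ∈ N, B (g * m) = B g)
    (hf : ∀ g h, w.valuation ((f g h : Omˣ) : Om) = 1) {s : Om ≃ₐ[K] Om} (hs : s ∈ dec K w) :
    w.valuation (B s : Om) ^ n * w.valuation (a : Om) ^ ex s = 1 := by
  set U : (Om ≃ₐ[K] Om) → w.ValueGroup := fun s =>
    w.valuation (B s : Om) ^ n * w.valuation (a : Om) ^ ex s with hU
  have hn : 0 < n := lt_of_le_of_lt (Nat.zero_le _) (he.lt 1)
  have hne : ∀ u : Omˣ, w.valuation (u : Om) ≠ 0 := fun u =>
    (Valuation.ne_zero_iff _).2 u.ne_zero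
  have hact : ∀ s ∈ dec K w, ∀ u : Omˣ, w.valuation ((s • u : Omˣ) : Om) = w.valuation (u : Om) :=
    fun s hs u => dec_val_inv hs (u : Om)
  have hmul : ∀ s ∈ dec K w, ∀ t, U (s * t) = U s * U t := by
    intro s hs t
    have h1 := hf s t
    rw [hT s t] at h1
    simp only [Units.val_mul, map_mul, hact s hs, Units.val_inv_eq_inv_val, map_inv₀] at h1
    simp only [hU]
    rw [he.mul s t]
    split_ifs with hc
    · rw [if_pos hc] at h1
      obtain ⟨i, hi⟩ := Nat.exists_eq_add_of_le hc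
      rw [hi, Nat.add_sub_cancel_left]
      have h3 : w.valuation (B (s * t) : Om) =
          w.valuation (a : Om) * (w.valuation (B s : Om) * w.valuation (B t : Om)) := by
        rw [← mul_assoc, mul_inv_eq_one₀ (hne _)] at h1
        rw [← h1]
      have h4 : w.valuation (a : Om) ^ ex s * w.valuation (a : Om) ^ ex t =
          w.valuation (a : Om) ^ n * w.valuation (a : Om) ^ i := by
        rw [← pow_add, hi, pow_add]
      rw [h3, mul_pow, mul_pow]
      calc w.valuation (a : Om) ^ n * (w.valuation (B s : Om) ^ n * w.valuation (B t : Om) ^ n) *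
            w.valuation (a : Om) ^ i = w.valuation (B s : Om) ^ n * w.valuation (B t : Om) ^ n *
            (w.valuation (a : Om) ^ n * w.valuation (a : Om) ^ i) := by ac_rfl
        _ = _ := by rw [← h4]; ac_rfl
    · rw [if_neg hc, Units.val_one, map_one, one_mul] at h1
      have h3 : w.valuation (B (s * t) : Om) =
          w.valuation (B s : Om) * w.valuation (B t : Om) := by
        rw [mul_inv_eq_one₀ (hne _)] at h1
        rw [← h1]
      rw [h3, mul_pow, pow_add]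
      exact mul_mul_mul_comm _ _ _ _
  have hB1 : w.valuation (B 1 : Om) = 1 := by
    have h1 := hf 1 1
    have h3 : ex 1 = 0 := he.zero_of_mem H.one_mem
    rw [hT 1 1, h3, add_zero, if_neg (not_le.2 hn), one_mul, mul_one, one_smul,
      mul_inv_cancel_right] at h1
    exact h1
  have hUN : ∀ m ∈ N, U m = 1 := by
    intro m hm
    have h1 : B m = B 1 := by
      have := hBN 1 m hm
      rwa [one_mul] at this
    simp only [hU]
    rw [h1, hB1, he.zero_of_mem (hNH hm), one_pow, pow_zero, one_mul]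
  have hpow : ∀ m : ℕ, U (s ^ m) = U s ^ m := by
    intro m
    induction m with
    | zero => rw [pow_zero, pow_zero]; exact hUN 1 N.one_mem
    | succ m ih => rw [pow_succ, hmul _ ((dec K w).pow_mem hs m), ih, pow_succ]
  have h1 := hpow N.index
  rw [hUN _ (N.pow_index_mem s)] at h1
  exact (pow_eq_one_iff_of_nonneg zero_le hNf.index_ne_zero).1 h1.symm

/-- The invariant is a sign given by the value of `a` and the exponent of the Frobenius. -/
theorem loc_sign (h2 : w.valuation 2 = 1) {sg ph : Om ≃ₐ[K] Om} (hsg : sg ∈ iner K w)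
    (hph : IsFrob K w ph) {q : ℕ} (hq : resCard (below K w) = q) (hqo : Odd q) {r : Om}
    (hr : r ≠ 0) (hsr : sg r = -r) {A : ℤ}
    (hA : w.valuation (a : Om) = w.valuation r ^ (2 * A)) {j m : ℕ} (hm : Odd m)
    (hn : n = 2 ^ j * m) (hT : Shape f a B n ex) (hex : ∀ i, ex (sg ^ i) = 0)
    (hlt : ∀ g, ex g < n) (hrel : B (ph * sg) = B (sg ^ q * ph))
    (hU : ∀ s ∈ dec K w, w.valuation (B s : Om) ^ n * w.valuation (a : Om) ^ ex s = 1)
    (hinv : invU sg ph q f ^ 2 = 1) :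
    ∃ D : ℤ, 2 ^ j * D = 2 * A * ex ph ∧ invU sg ph q f = (-1) ^ D := by
  have hn0 : n ≠ 0 := (lt_of_le_of_lt (Nat.zero_le _) (hlt 1)).ne'
  set u := B sg with hu
  set y := B ph with hy
  set ζ := invU sg ph q f with hζ
  -- `u` is a unit at `w`
  have hwu : w.valuation (u : Om) = 1 := by
    have h1 := hU sg hsg.1
    have h3 := hex 1
    rw [pow_one] at h3
    rw [h3, pow_zero, mul_one] at h1
    exact (pow_eq_one_iff_of_nonneg zero_le hn0).1 h1
  have hum : (u : Om) ∈ w := mem_of_val hwu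
  have hru : rr w (u : Om) ≠ 0 := by
    rw [rr_of_mem hum, Ne, residue_eq_zero_iff, ValuationSubring.valuation_lt_one_iff]
    change ¬ w.valuation (u : Om) < 1
    rw [hwu]
    exact lt_irrefl _
  -- the formula
  have h1 := invU_eq hT hqo.pos hex hlt hrel
  rw [← hζ, ← hu, ← hy] at h1
  have h3 : ζ * (sg ^ q • y * y⁻¹) * (∏ i ∈ range q, sg ^ i • u) = ph • u := by
    rw [h1]
    have e1 : ∀ Y S X P : Omˣ, Y * S⁻¹ * X * P⁻¹ * (S * Y⁻¹) * P = X := by
      intro Y S X P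
      have e2 : Y * S⁻¹ * X * P⁻¹ * (S * Y⁻¹) * P = X * (Y * Y⁻¹) * (S * S⁻¹) * (P * P⁻¹) := by
        simp only [mul_comm, mul_left_comm, mul_assoc]
      rw [e2, mul_inv_cancel, mul_inv_cancel, mul_inv_cancel, mul_one, mul_one, mul_one]
    exact e1 _ _ _ _
  have h4 : (ζ : Om) * ((sg ^ q) (y : Om) / y) * (∏ i ∈ range q, (sg ^ i) (u : Om)) =
      ph (u : Om) := by
    have h5 := congrArg (fun x : Omˣ => (x : Om)) h3
    simp only [Units.val_mul, Units.val_inv_eq_inv_val, Units.coe_prod] at h5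
    rw [div_eq_mul_inv]
    exact h5
  -- `ζ = 1` or `ζ = -1`
  have hζ1 : ζ = 1 ∨ ζ = -1 := by
    have h5 : (ζ : Om) * (ζ : Om) = 1 := by
      rw [← pow_two, ← Units.val_pow_eq_pow_val, hinv, Units.val_one]
    rcases mul_self_eq_one_iff.1 h5 with h6 | h6
    · exact Or.inl (Units.ext h6)
    · exact Or.inr (Units.ext h6)
  have hζw : w.valuation (ζ : Om) = 1 := by
    rcases hζ1 with h5 | h5 <;> rw [h5]
    · rw [Units.val_one, map_one]
    · rw [Units.val_neg, Units.val_one, Valuation.map_neg, map_one]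
  have hζm : (ζ : Om) ∈ w := mem_of_val hζw
  have hsu : ∀ i : ℕ, (sg ^ i) (u : Om) ∈ w := fun i =>
    ((mem_dec K).1 ((dec K w).pow_mem hsg.1 i) _).2 hum
  have hprod : ∀ m : ℕ, ∏ i ∈ range m, (sg ^ i) (u : Om) ∈ w ∧
      rr w (∏ i ∈ range m, (sg ^ i) (u : Om)) = rr w (u : Om) ^ m := by
    intro m
    induction m with
    | zero => exact ⟨by rw [range_zero, prod_empty]; exact w.one_mem, by simp [rr_one]⟩
    | succ m ih =>
      rw [prod_range_succ]
      exact ⟨mul_mem ih.1 (hsu m), by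
        rw [rr_mul ih.1 (hsu m), ih.2, rr_iner ((iner K w).pow_mem hsg m) hum, pow_succ]⟩
  have hq0 : y.1 ≠ 0 := y.ne_zero
  have h5 := congrArg (rr w) h4
  rw [rr_mul (mul_mem hζm (ratio_mem ((dec K w).pow_mem hsg.1 q) hq0)) (hprod q).1,
    rr_mul hζm (ratio_mem ((dec K w).pow_mem hsg.1 q) hq0), (hprod q).2, rr_frob hph hum, hq,
    ratio_pow hsg hq0] at h5
  have h6 : rr w (ζ : Om) * th w sg (y : Om) ^ q = 1 := by
    have h7 : rr w (u : Om) ^ q ≠ 0 := pow_ne_zero _ hru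
    exact mul_right_cancel₀ h7 (h5.trans (one_mul _).symm)
  have hz2 : rr w (ζ : Om) * rr w (ζ : Om) = 1 := by
    rcases hζ1 with h7 | h7 <;> rw [h7]
    · rw [Units.val_one, rr_one, one_mul]
    · rw [Units.val_neg, Units.val_one, rr_neg_one, neg_one_mul, neg_neg]
  have h7 : th w sg (y : Om) ^ q = rr w (ζ : Om) := by
    have h8 : rr w (ζ : Om) ≠ 0 := fun h0 => by
      rw [h0, zero_mul] at hz2
      exact zero_ne_one hz2
    exact mul_left_cancel₀ h8 (h6.trans hz2.symm)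
  -- the element `z`
  have hz0 : (y : Om) ^ (m * q) ≠ 0 := pow_ne_zero _ hq0
  have hzv : w.valuation ((y : Om) ^ (m * q)) ^ (2 ^ j) =
      w.valuation r ^ (-(2 * A * ex ph * q)) := by
    have h8 := hU ph hph.mem
    rw [← hy, hA, ← zpow_natCast (w.valuation r ^ (2 * A)), ← zpow_mul] at h8
    have hr' : w.valuation r ≠ 0 := (Valuation.ne_zero_iff _).2 hr
    have h9 : w.valuation (y : Om) ^ n = w.valuation r ^ (-(2 * A * ex ph)) := by
      rw [zpow_neg]
      exact eq_inv_of_mul_eq_one_left h8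
    rw [map_pow, ← pow_mul]
    have h10 : m * q * 2 ^ j = n * q := by rw [hn]; ring
    rw [h10, pow_mul, h9, ← zpow_natCast, ← zpow_mul]
    congr 1
    ring
  have hpm : ∀ x : ResidueField w, x * x = 1 → x ^ m = x := by
    intro x hx
    obtain ⟨l, rfl⟩ := hm
    rw [pow_succ, pow_mul, pow_two, hx, one_pow, one_mul]
  have hthz : th w sg ((y : Om) ^ (m * q)) = rr w (ζ : Om) := by
    rw [th_pow hsg hq0, mul_comm, pow_mul, h7, hpm _ hz2]
  obtain ⟨D', hD1, hD2⟩ := two_adic hsg h2 hr hsr j hz0 _ hzv (by rw [hthz, pow_two, hz2])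
  have hthz2 : rr w (ζ : Om) = (-1) ^ D' := by
    rw [← hthz, th_congr hsg hz0 (zpow_ne_zero _ hr) (by rw [hD2, map_zpow₀]), th_zpow hsg hr,
      th_neg hr hsr]
  -- divide by `q`
  have hdvd : (2 : ℤ) ^ j ∣ 2 * A * ex ph := by
    have h8 : (2 : ℤ) ^ j ∣ 2 * A * ex ph * q := ⟨-D', by rw [mul_neg, ← hD1]; ring⟩
    have h9 : IsCoprime ((2 : ℤ) ^ j) (q : ℤ) := by
      apply IsCoprime.pow_left
      obtain ⟨l, rfl⟩ := hqo
      exact ⟨-l, 1, by push_cast; ring⟩
    exact h9.dvd_of_dvd_mul_right h8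
  obtain ⟨D, hD⟩ := hdvd
  refine ⟨D, hD.symm, ?_⟩
  have hDD : D' = -(D * q) := by
    have h8 : (2 : ℤ) ^ j * D' = 2 ^ j * (-(D * q)) := by
      rw [← hD1, hD]; ring
    exact mul_left_cancel₀ (pow_ne_zero _ two_ne_zero) h8
  have hpar : ((-1) ^ D' : ResidueField w) = (-1) ^ D := by
    rw [hDD, zpow_neg, zpow_mul, zpow_natCast]
    have h8 : ((-1 : ResidueField w) ^ D) = 1 ∨ ((-1 : ResidueField w) ^ D) = -1 := by
      rcases Int.even_or_odd D with h9 | h9
      · exact Or.inl h9.neg_one_zpow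
      · exact Or.inr h9.neg_one_zpow
    rcases h8 with h8 | h8 <;> rw [h8]
    · rw [one_pow, inv_one]
    · rw [hqo.neg_one_pow, inv_neg, inv_one]
  rw [hpar] at hthz2
  rcases Int.even_or_odd D with h9 | h9
  · rw [h9.neg_one_zpow] at hthz2 ⊢
    rcases hζ1 with h10 | h10
    · exact h10
    · rw [h10, Units.val_neg, Units.val_one, rr_neg_one] at hthz2
      exact absurd hthz2 (neg_one_ne_one h2)
  · rw [h9.neg_one_zpow] at hthz2 ⊢
    rcases hζ1 with h10 | h10
    · rw [h10, Units.val_one, rr_one] at hthz2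
      exact absurd hthz2.symm (neg_one_ne_one h2)
    · exact h10

end val

end Pool.Agent.SmN.R
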