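import Pool.Agent.Lib.SmN.R.Hb
import Pool.Agent.Lib.SmN.R.LocU
import Pool.Agent.Lib.Sm.P.MuLoc
import Pool.Agent.Lib.GBU.Sym

/-!
# Reciprocity for `H^2(K, ZMod 2)`, module LocK: the local statement at a place of `K`
-/

set_option autoImplicit false

open IsLocalRing

namespace Pool.Agent.SmN.R

open Pool.Agent.BSDFF Pool.Agent.Lib.SmD Pool.Agent.SmD Pool.Agent.GBC Pool.Agent.GBU

variable {k K : Type} [Field k] [Finite k] [Field K] [Algebra k K] [Algebra (RatFunc k) K]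
  [IsScalarTower k (RatFunc k) K] [FiniteDimensional (RatFunc k) K]

/-- The number of elements of the residue field. -/
theorem qK_eq (v : Place k K) : qK v = Nat.card k ^ v.degree := by
  let _ := v.constMap.toAlgebra
  have := BSDK.residue_finite v
  exact Module.natCard_eq_pow_finrank (K := k) (V := ResidueField v.ring)

variable {Om : Type} [Field Om] [Algebra K Om] [IsSepClosure K Om]

theorem exists_char (k K Om : Type) [Field k] [Finite k] [Field K] [Algebra k K] [Field Om]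
    [Algebra K Om] (h2 : (2 : k) ≠ 0) :
    ∃ p f : ℕ, p.Prime ∧ Odd p ∧ 0 < f ∧ Nat.card k = p ^ f ∧ CharP Om p := by
  have : Fintype k := Fintype.ofFinite k
  obtain ⟨p, hp⟩ := CharP.exists k
  obtain ⟨n, hpr, hn⟩ := FiniteField.card k p
  refine ⟨p, n, hpr, ?_, n.pos, by rw [Nat.card_eq_fintype_card, hn],
    charP_of_injective_ringHom ((algebraMap K Om).comp (algebraMap k K)).injective p⟩
  refine hpr.odd_of_ne_two ?_
  rintro rfl
  apply h2
  exact_mod_cast (CharP.cast_eq_zero k 2)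

/-- The action of the chosen elements on the constants. -/
theorem sg_cst (h2 : (2 : k) ≠ 0) (v : Place k K) {M : ℕ} (hM : 0 < M) :
    sgK Om v ∈ Hc K Om (Nat.card k) M := by
  have hg : IsGalois K Om := IsSepClosure.isGalois
  obtain ⟨p, f, hp, -, hf, hq, hch⟩ := exists_char k K Om h2
  have hpf : Fact p.Prime := ⟨hp⟩
  intro x hx
  refine iner_cst (p := p) (sgK_iner h2 v) ⟨f * M, Nat.mul_pos hf hM, ?_⟩
  rwa [pow_mul, ← hq]

theorem ph_cst (h2 : (2 : k) ≠ 0) (v : Place k K) {M : ℕ} (hM : 0 < M) {x : Om}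
    (hx : x ^ (Nat.card k ^ M) = x) : phK Om v x = x ^ (Nat.card k ^ v.degree) := by
  have hg : IsGalois K Om := IsSepClosure.isGalois
  obtain ⟨p, f, hp, -, hf, hq, hch⟩ := exists_char k K Om h2
  have hpf : Fact p.Prime := ⟨hp⟩
  have h1 := (phK_frob (Om := Om) v).cst (p := p) (c := x) ⟨f * M, Nat.mul_pos hf hM, by
    rwa [pow_mul, ← hq]⟩
  rw [h1, resCard_below (below_abK Om v), qK_eq]

omit [Finite k] [Algebra (RatFunc k) K] [IsScalarTower k (RatFunc k) K]
  [FiniteDimensional (RatFunc k) K] [IsSepClosure K Om] in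
/-- The value of an element of `K`. -/
theorem val_abK {w : ValuationSubring Om} {v : Place k K} (hw : below K w = v.ring) {x : K}
    (hx : x ≠ 0) {r : Om} (hr : r ^ 2 = algebraMap K Om (unif v : K)) :
    w.valuation (algebraMap K Om x) = w.valuation r ^ (2 * ord v x) := by
  have hu := unifK_ne v
  have h3 : x / (unif v : K) ^ ord v x ≠ 0 := div_ne_zero hx (zpow_ne_zero _ hu)
  have h4 : ord v (x / (unif v : K) ^ ord v x) = 0 := by
    rw [ord_div v hx (zpow_ne_zero _ hu), ord_zpow v hu, ord_unif, mul_one, sub_self]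
  have h5 : w.valuation (algebraMap K Om (x / (unif v : K) ^ ord v x)) = 1 := by
    refine val_unit_below ?_ ?_ h3
    · rw [hw, mem_ring_iff v h3, h4]
    · rw [hw, mem_ring_iff v (inv_ne_zero h3), ord_inv v h3, h4, neg_zero]
  have h1 : x = (x / (unif v : K) ^ ord v x) * (unif v : K) ^ ord v x := by
    rw [div_mul_cancel₀ _ (zpow_ne_zero _ hu)]
  have h6 : w.valuation (algebraMap K Om (unif v : K)) = w.valuation r ^ 2 := by
    rw [← hr, map_pow]
  rw [zpow_mul, zpow_ofNat, ← h6]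
  conv_lhs => rw [h1, map_mul, map_mul, h5, one_mul, map_zpow₀, map_zpow₀]

/-- The local statement. -/
theorem locK (h2 : (2 : k) ≠ 0) (v : Place k K) {e : ℕ}
    {f : (Om ≃ₐ[K] Om) → (Om ≃ₐ[K] Om) → Omˣ} (hmu : ∀ s t, f s t ^ 2 ^ e = 1)
    {N0 : Subgroup (Om ≃ₐ[K] Om)} (hN0 : N0 ∈ NP K Om) {M : ℕ} (hM : 0 < M) {c n : ℕ}
    {σ : Om ≃ₐ[K] Om} {ex : (Om ≃ₐ[K] Om) → ℕ}
    (he : Expo (Hc K Om (Nat.card k) M) n σ ex)
    (hfr : ∀ (g : Om ≃ₐ[K] Om) (b : ℕ),
      (∀ x : Om, x ^ (Nat.card k ^ M) = x → g x = x ^ (Nat.card k ^ b)) →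
      ∃ i l : ℤ, (b : ℤ) = c * i ∧ i = ex g + n * l)
    {j m : ℕ} (hm : Odd m) (hn : n = 2 ^ j * m) {a : Omˣ} {B : (Om ≃ₐ[K] Om) → Omˣ}
    (hT : Shape f a B n ex)
    (hBN : ∀ g, ∀ m ∈ N0 ⊓ Hc K Om (Nat.card k) M, B (g * m) = B g) {a0 : K} (ha0 : a0 ≠ 0)
    (ha : (a : Om) = algebraMap K Om a0) (hinv : invU (sgK Om v) (phK Om v) (qK v) f ^ 2 = 1) :
    ∃ D : ℤ, (c : ℤ) * 2 ^ j * D = 2 * (v.degree * ord v a0) ∧
      (ord v a0 = 0 → invU (sgK Om v) (phK Om v) (qK v) f = 1) ∧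
      invU (sgK Om v) (phK Om v) (qK v) f = (-1) ^ D := by
  have hg : IsGalois K Om := IsSepClosure.isGalois
  have hsc : IsSepClosed Om := IsSepClosure.sep_closed K
  set H := Hc K Om (Nat.card k) M with hH
  set w := abK Om v with hw
  have hb : below K w = v.ring := below_abK Om v
  have hL := locHyp_of_below h2 v w hb (unif_irreducible v)
  have h2Om : (2 : Om) ≠ 0 := two_ne_zero_Om hL.two
  have hN0n := NP.normal hN0
  have hfi : (N0 ⊓ H).FiniteIndex := by
    have hop : IsOpen ((N0 ⊓ H : Subgroup (Om ≃ₐ[K] Om)) : Set (Om ≃ₐ[K] Om)) := by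
      rw [Subgroup.coe_inf]
      exact (NP.isOpen hN0).inter (isOpen_Hc (k := k) hM)
    have := Subgroup.quotient_finite_of_isOpen _ hop
    exact Subgroup.finiteIndex_of_finite_quotient
  obtain ⟨r, hr⟩ := exists_sqrt h2Om (algebraMap K Om (unif v : K))
  have hr0 : r ≠ 0 := by
    rintro rfl
    have h3 := (map_ne_zero_iff _ (algebraMap K Om).injective).2 (unifK_ne v)
    apply h3
    rw [← hr]
    simp
  have hsr : sgK Om v r = -r := by
    have h3 := (locVals (k := k) (K := K) (Om := Om) h2 v).sg_unif (unif v) (unif_irreducible v)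
    exact (chi_eq_one_iff h2Om (unifK_ne v) _ hr).1 h3
  have hsgH : ∀ i : ℕ, sgK Om v ^ i ∈ H := fun i => H.pow_mem (sg_cst h2 v hM) i
  have hex : ∀ i, ex (sgK Om v ^ i) = 0 := fun i => he.zero_of_mem (hsgH i)
  have hrel : B (phK Om v * sgK Om v) = B (sgK Om v ^ qK v * phK Om v) := by
    have h3 : phK Om v * sgK Om v = sgK Om v ^ qK v * phK Om v *
        ((phK Om v)⁻¹ * ((sgK Om v ^ qK v)⁻¹ * (phK Om v * sgK Om v * (phK Om v)⁻¹)) *
          phK Om v) := by group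
    have h4 : (phK Om v)⁻¹ * ((sgK Om v ^ qK v)⁻¹ * (phK Om v * sgK Om v * (phK Om v)⁻¹)) *
        phK Om v ∈ N0 := by
      have := hN0n.conj_mem _ (frobK (k := k) h2 v hN0) (phK Om v)⁻¹
      rwa [inv_inv] at this
    have h5 : (phK Om v)⁻¹ * ((sgK Om v ^ qK v)⁻¹ * (phK Om v * sgK Om v * (phK Om v)⁻¹)) *
        phK Om v ∈ H := by
      have h6 : (sgK Om v ^ qK v)⁻¹ * (phK Om v * sgK Om v * (phK Om v)⁻¹) ∈ H := by
        refine H.mul_mem (H.inv_mem (hsgH _)) ?_
        have := hsgH 1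
        rw [pow_one] at this
        exact (Hc_normal (K := K) (Om := Om) (Nat.card k) M).conj_mem _ this _
      have := (Hc_normal (K := K) (Om := Om) (Nat.card k) M).conj_mem _ h6 (phK Om v)⁻¹
      rwa [inv_inv] at this
    rw [h3, hBN _ _ ⟨h4, h5⟩]
  have hval : ∀ g h, w.valuation ((f g h : Omˣ) : Om) = 1 := by
    intro g h
    have h3 : w.valuation ((f g h : Omˣ) : Om) ^ 2 ^ e = 1 := by
      rw [← map_pow, ← Units.val_pow_eq_pow_val, hmu, Units.val_one, map_one]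
    exact (pow_eq_one_iff_of_nonneg zero_le (by positivity)).1 h3
  have hU : ∀ s ∈ dec K w, w.valuation (B s : Om) ^ n * w.valuation (a : Om) ^ ex s = 1 :=
    fun s hs => val_B hT (H := H) (N := N0 ⊓ H) inf_le_right he hBN hval hs
  obtain ⟨D, hD, hD2⟩ := loc_sign hL.two (sgK_iner h2 v) (phK_frob v)
    (q := qK v) (resCard_below hb) (odd_qK h2 v) hr0 hsr (A := ord v a0)
    (by rw [ha]; exact val_abK hb ha0 hr) hm hn hT hex he.lt hrel hU hinv
  obtain ⟨i, l, hi, hl⟩ := hfr (phK Om v) v.degree fun x hx => ph_cst h2 v hM hx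
  refine ⟨D + 2 * (ord v a0 * m * l), ?_, fun h0 => ?_, ?_⟩
  · have h3 : (c : ℤ) * 2 ^ j * (D + 2 * (ord v a0 * m * l)) =
        c * (2 ^ j * D) + 2 * ord v a0 * c * ((2 ^ j * m : ℤ) * l) := by ring
    have h4 : ((2 ^ j * m : ℤ)) = (n : ℤ) := by rw [hn]; push_cast; ring
    rw [h3, hD, h4, hi, hl]
    ring
  · rw [h0] at hD
    have h3 : D = 0 := by
      rcases mul_eq_zero.1 (hD.trans (by ring)) with h | h
      · exact absurd h (pow_ne_zero _ two_ne_zero)
      · exact h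
    rw [hD2, h3, zpow_zero]
  · rw [hD2, zpow_add, zpow_mul]
    simp

end Pool.Agent.SmN.R
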