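import Pool.Agent.Lib.SmN.R.Cyc

/-!
# Reciprocity for `H^2(K, ZMod 2)`, module Cst: the action of `Gal(Om / K)` on the constants

`q` = cardinality of `k`; `Hc K Om q M` = the automorphisms fixing all `x` with `x ^ (q ^ M) = x`.
`exists_expo`: `Gal(Om / K) / Hc` is cyclic, generated by `σ : x ↦ x ^ (q ^ c)`, `M = c n`.
-/

set_option autoImplicit false

open Polynomial

namespace Pool.Agent.SmN.R

section ring

variable {k Om : Type*} [Field k] [Field Om]

private theorem cst_card_eq_pow [Finite k] (ι : k →+* Om) :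
    ∃ p f : ℕ, p.Prime ∧ 0 < f ∧ Nat.card k = p ^ f ∧ CharP Om p ∧ CharP k p := by
  have : Fintype k := Fintype.ofFinite k
  obtain ⟨p, hp⟩ := CharP.exists k
  obtain ⟨n, hpr, hn⟩ := FiniteField.card k p
  exact ⟨p, n, hpr, n.pos, by rw [Nat.card_eq_fintype_card, hn],
    charP_of_injective_ringHom ι.injective p, hp⟩

theorem three_le_card [Finite k] (h2 : (2 : k) ≠ 0) : 3 ≤ Nat.card k := by
  obtain ⟨p, f, hp, hf, hq, -, hk⟩ := cst_card_eq_pow (RingHom.id k)
  have hp2 : p ≠ 2 := by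
    rintro rfl
    apply h2
    exact_mod_cast (CharP.cast_eq_zero k 2)
  have hp3 : 3 ≤ p := by
    have := hp.two_le
    omega
  rw [hq]
  calc 3 ≤ p := hp3
    _ = p ^ 1 := (pow_one p).symm
    _ ≤ p ^ f := Nat.pow_le_pow_right hp.pos hf

/-- A generator of the constants of level `M`. -/
theorem cst_prim [Finite k] [IsSepClosed Om] (h2 : (2 : k) ≠ 0) (ι : k →+* Om) {M : ℕ}
    (hM : 0 < M) : ∃ ζ : Om, IsPrimitiveRoot ζ (Nat.card k ^ M - 1) := by
  obtain ⟨p, f, hp, hf, hq, hΩ, hk⟩ := cst_card_eq_pow ι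
  have h3 : 3 ≤ Nat.card k ^ M := by
    calc 3 ≤ Nat.card k := three_le_card h2
      _ = Nat.card k ^ 1 := (pow_one _).symm
      _ ≤ Nat.card k ^ M := Nat.pow_le_pow_right Nat.card_pos hM
  have hne : ((Nat.card k ^ M - 1 : ℕ) : Om) ≠ 0 := by
    rw [Nat.cast_sub (by omega), hq, ← pow_mul, Nat.cast_pow, CharP.cast_eq_zero, zero_pow
      (Nat.mul_pos hf hM).ne']
    simp
  have : NeZero ((Nat.card k ^ M - 1 : ℕ) : Om) := ⟨hne⟩
  exact HasEnoughRootsOfUnity.exists_primitiveRoot Om (Nat.card k ^ M - 1)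

private theorem cst_level {Q : ℕ} (hQ : 1 ≤ Q) {ζ : Om} (hζ : ζ ^ (Q - 1) = 1) : ζ ^ Q = ζ := by
  have : Q = (Q - 1) + 1 := by omega
  rw [this, pow_succ, hζ, one_mul]

private theorem cst_mem_of_pow_eq [Finite k] (ι : k →+* Om) {c : Om} (hc : c ^ Nat.card k = c) :
    ∃ a : k, ι a = c := by
  classical
  have : Fintype k := Fintype.ofFinite k
  have hq : 1 < Nat.card k := Finite.one_lt_card
  have h0 : (X ^ (Nat.card k) - X : Polynomial Om) ≠ 0 := FiniteField.X_pow_card_sub_X_ne_zero Om hq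
  have hdeg : (X ^ (Nat.card k) - X : Polynomial Om).natDegree = Nat.card k :=
    FiniteField.X_pow_card_sub_X_natDegree_eq Om hq
  have hroot : ∀ x : Om, x ∈ (X ^ (Nat.card k) - X : Polynomial Om).roots.toFinset ↔
      x ^ Nat.card k = x := by
    intro x
    rw [Multiset.mem_toFinset, mem_roots h0, IsRoot.def, eval_sub, eval_pow, eval_X, sub_eq_zero]
  have hsub : Finset.univ.image ι ⊆ (X ^ (Nat.card k) - X : Polynomial Om).roots.toFinset := by
    intro x hx
    obtain ⟨a, -, rfl⟩ := Finset.mem_image.1 hx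
    rw [hroot, ← map_pow, Nat.card_eq_fintype_card, FiniteField.pow_card]
  have hcard : (X ^ (Nat.card k) - X : Polynomial Om).roots.toFinset.card ≤
      (Finset.univ.image ι).card := by
    rw [Finset.card_image_of_injective _ ι.injective, Finset.card_univ]
    calc _ ≤ Multiset.card (X ^ (Nat.card k) - X : Polynomial Om).roots :=
          Multiset.toFinset_card_le _
      _ ≤ (X ^ (Nat.card k) - X : Polynomial Om).natDegree := card_roots' _
      _ = _ := by rw [hdeg, Nat.card_eq_fintype_card]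
  have heq := Finset.eq_of_subset_of_card_le hsub hcard
  have h1 : c ∈ Finset.univ.image ι := by
    rw [heq, hroot]
    exact hc
  obtain ⟨a, -, ha⟩ := Finset.mem_image.1 h1
  exact ⟨a, ha⟩

/-- An endomorphism fixing `k` acts on the constants of level `M` as a power of Frobenius. -/
theorem cst_frob [Finite k] [IsSepClosed Om] (h2 : (2 : k) ≠ 0) (ι : k →+* Om) (g : Om →+* Om)
    (hg : ∀ a, g (ι a) = ι a) {M : ℕ} (hM : 0 < M) :
    ∃ i : ℕ, i < M ∧ ∀ x : Om, x ^ (Nat.card k ^ M) = x → g x = x ^ (Nat.card k ^ i) := by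
  classical
  obtain ⟨ζ, hζ⟩ := cst_prim h2 ι hM
  have hQ : 1 ≤ Nat.card k ^ M := Nat.one_le_pow _ _ Nat.card_pos
  have hQ2 : 1 < Nat.card k ^ M := Nat.one_lt_pow hM.ne' (by have := three_le_card h2; omega)
  have hζn : ζ ^ (Nat.card k ^ M) = ζ := cst_level hQ hζ.pow_eq_one
  obtain ⟨p, f, hp, hf, hq, hΩ, hk⟩ := cst_card_eq_pow ι
  have hpf : Fact p.Prime := ⟨hp⟩
  set F : Om →+* Om := iterateFrobenius Om p f with hF
  have hFx : ∀ x : Om, F x = x ^ Nat.card k := fun x => by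
    rw [hF, iterateFrobenius_def, hq]
  set P : Polynomial Om := ∏ i ∈ Finset.range M, (X - C (ζ ^ (Nat.card k ^ i))) with hP
  have hPF : P.map F = P := by
    rw [hP, Polynomial.map_prod]
    have e : ∀ i ∈ Finset.range M, (X - C (ζ ^ (Nat.card k ^ i)) : Polynomial Om).map F
        = (X - C (ζ ^ (Nat.card k ^ (i + 1)))) := by
      intro i _
      rw [Polynomial.map_sub, map_X, map_C, hFx, ← pow_mul, ← pow_succ]
    rw [Finset.prod_congr rfl e]
    obtain ⟨m, rfl⟩ : ∃ m, M = m + 1 := ⟨M - 1, by omega⟩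
    rw [Finset.prod_range_succ, Finset.prod_range_succ']
    rw [hζn, pow_zero, pow_one]
  have hcoef : ∀ i : ℕ, g (P.coeff i) = P.coeff i := by
    intro i
    have h1 : F (P.coeff i) = P.coeff i := by
      rw [← coeff_map, hPF]
    rw [hFx] at h1
    obtain ⟨a, ha⟩ := cst_mem_of_pow_eq ι h1
    rw [← ha]
    exact hg _
  have hPg : P.map g = P := by
    ext i
    rw [coeff_map]
    exact hcoef i
  have hroot : P.eval (g ζ) = 0 := by
    have h1 : P.eval ζ = 0 := by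
      rw [hP, eval_prod]
      apply Finset.prod_eq_zero (Finset.mem_range.2 hM)
      rw [eval_sub, eval_X, eval_C, pow_zero, pow_one, sub_self]
    rw [← hPg, eval_map]
    have h3 := Polynomial.hom_eval₂ P (RingHom.id Om) g ζ
    rw [RingHom.comp_id] at h3
    rw [← h3]
    change g (P.eval ζ) = 0
    rw [h1, map_zero]
  rw [hP, eval_prod, Finset.prod_eq_zero_iff] at hroot
  obtain ⟨i, hi, hi2⟩ := hroot
  rw [eval_sub, eval_X, eval_C, sub_eq_zero] at hi2
  refine ⟨i, Finset.mem_range.1 hi, fun x hx => ?_⟩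
  by_cases hx0 : x = 0
  · rw [hx0, map_zero, zero_pow (pow_pos Nat.card_pos i).ne']
  · have h1 : x ^ (Nat.card k ^ M - 1) = 1 := by
      have e : Nat.card k ^ M = (Nat.card k ^ M - 1) + 1 := by omega
      rw [e, pow_succ] at hx
      exact mul_right_cancel₀ hx0 (hx.trans (one_mul x).symm)
    have : NeZero (Nat.card k ^ M - 1) := ⟨by omega⟩
    obtain ⟨j, -, hj⟩ := hζ.eq_pow_of_pow_eq_one h1
    rw [← hj, map_pow, hi2, ← pow_mul, ← pow_mul, mul_comm]

omit [Field k] in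
theorem cst_pow_add {x : Om} {q M : ℕ} (hx : x ^ (q ^ M) = x) (i l : ℕ) :
    x ^ (q ^ (i + M * l)) = x ^ (q ^ i) := by
  have h : ∀ l : ℕ, x ^ (q ^ (M * l)) = x := by
    intro l
    induction l with
    | zero => simp
    | succ l ih => rw [Nat.mul_succ, pow_add, pow_mul, ih, hx]
  rw [pow_add, mul_comm, pow_mul, h]

/-- The exponent is unique modulo `M`. -/
theorem cst_inj [Finite k] [IsSepClosed Om] (h2 : (2 : k) ≠ 0) (ι : k →+* Om) {M : ℕ}
    (hM : 0 < M) {i i' : ℕ}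
    (h : ∀ x : Om, x ^ (Nat.card k ^ M) = x → x ^ (Nat.card k ^ i) = x ^ (Nat.card k ^ i')) :
    i % M = i' % M := by
  obtain ⟨ζ, hζ⟩ := cst_prim h2 ι hM
  have hq := three_le_card h2
  have hQ : 1 ≤ Nat.card k ^ M := Nat.one_le_pow _ _ Nat.card_pos
  have hζn : ζ ^ (Nat.card k ^ M) = ζ := cst_level hQ hζ.pow_eq_one
  have h1 := h ζ hζn
  rw [← Nat.mod_add_div i M, ← Nat.mod_add_div i' M, cst_pow_add hζn, cst_pow_add hζn] at h1
  have hlt : ∀ j : ℕ, Nat.card k ^ (j % M) < Nat.card k ^ M - 1 := by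
    intro j
    have h3 : j % M ≤ M - 1 := by
      have := Nat.mod_lt j hM
      omega
    have h4 : Nat.card k ^ (j % M) ≤ Nat.card k ^ (M - 1) :=
      Nat.pow_le_pow_right Nat.card_pos h3
    have h5 : Nat.card k ^ M = Nat.card k ^ (M - 1) * Nat.card k := by
      rw [← pow_succ, Nat.sub_add_cancel hM]
    have h6 : 1 ≤ Nat.card k ^ (M - 1) := Nat.one_le_pow _ _ Nat.card_pos
    have h7 : Nat.card k ^ (M - 1) * 3 ≤ Nat.card k ^ (M - 1) * Nat.card k :=
      Nat.mul_le_mul_left _ hq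
    omega
  have h3 := hζ.pow_inj (hlt i) (hlt i') h1
  exact Nat.pow_right_injective (by omega) h3

end ring

section gal

variable (K Om : Type*) [Field K] [Field Om] [Algebra K Om]

/-- The automorphisms fixing the constants of level `M`. -/
def Hc (q M : ℕ) : Subgroup (Om ≃ₐ[K] Om) where
  carrier := {g | ∀ x : Om, x ^ (q ^ M) = x → g x = x}
  one_mem' := fun _ _ => rfl
  mul_mem' := by
    intro a b ha hb x hx
    have h1 : (a * b) x = a (b x) := rfl
    rw [h1, hb x hx, ha x hx]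
  inv_mem' := by
    intro a ha x hx
    have h1 : a⁻¹ x = a⁻¹ (a x) := by rw [ha x hx]
    rw [h1]
    exact a.symm_apply_apply x

variable {K Om}

theorem mem_Hc {q M : ℕ} {g : Om ≃ₐ[K] Om} : g ∈ Hc K Om q M ↔ ∀ x : Om, x ^ (q ^ M) = x → g x = x :=
  Iff.rfl

instance Hc_normal (q M : ℕ) : (Hc K Om q M).Normal := by
  refine ⟨fun h hh g => ?_⟩
  intro x hx
  change g (h (g⁻¹ x)) = x
  rw [hh _ (by rw [← map_pow, hx])]
  exact g.apply_symm_apply x

/-- The Galois group of the constants of level `M` is cyclic. -/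
theorem exists_expo {k : Type*} [Field k] [Finite k] [Algebra k K] [IsSepClosed Om]
    (h2 : (2 : k) ≠ 0) {M : ℕ} (hM : 0 < M) :
    ∃ (c n : ℕ) (σ : Om ≃ₐ[K] Om) (ex : (Om ≃ₐ[K] Om) → ℕ), 0 < n ∧ M = c * n ∧
      Expo (Hc K Om (Nat.card k) M) n σ ex ∧
      ∀ (g : Om ≃ₐ[K] Om) (b : ℕ),
        (∀ x : Om, x ^ (Nat.card k ^ M) = x → g x = x ^ (Nat.card k ^ b)) →
        ∃ i l : ℤ, (b : ℤ) = c * i ∧ i = ex g + n * l := by
  classical
  set q := Nat.card k with hq
  let ι : k →+* Om := (algebraMap K Om).comp (algebraMap k K)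
  let Fr : (Om ≃ₐ[K] Om) → ℕ → Prop := fun g b => ∀ x : Om, x ^ (q ^ M) = x → g x = x ^ (q ^ b)
  have hfr : ∀ g : Om ≃ₐ[K] Om, ∃ b : ℕ, b < M ∧ Fr g b := fun g =>
    cst_frob h2 ι (g : Om →+* Om) (fun a => g.commutes _) hM
  have hlev : ∀ (x : Om) (b : ℕ), x ^ (q ^ M) = x → (x ^ (q ^ b)) ^ (q ^ M) = x ^ (q ^ b) := by
    intro x b hx
    rw [← pow_mul, mul_comm, pow_mul, hx]
  have hadd : ∀ {g g' : Om ≃ₐ[K] Om} {b b' : ℕ}, Fr g b → Fr g' b' → Fr (g * g') (b + b') := by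
    intro g g' b b' h h' x hx
    change g (g' x) = _
    rw [h' x hx, h _ (hlev x b' hx), ← pow_mul, ← pow_add, add_comm]
  have hsub : ∀ {g g' : Om ≃ₐ[K] Om} {b d : ℕ}, Fr g b → Fr g' (b + d) → Fr (g⁻¹ * g') d := by
    intro g g' b d h h' x hx
    change g⁻¹ (g' x) = _
    rw [h' x hx, add_comm, pow_add, pow_mul, ← h _ (hlev x d hx)]
    exact g.symm_apply_apply _
  have huni : ∀ {g : Om ≃ₐ[K] Om} {b b' : ℕ}, Fr g b → Fr g b' → b % M = b' % M := by
    intro g b b' h h'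
    exact cst_inj h2 ι hM fun x hx => by rw [← h x hx, ← h' x hx]
  have hmod : ∀ {g : Om ≃ₐ[K] Om} {b : ℕ} (l : ℕ), Fr g b → Fr g (b + M * l) := by
    intro g b l h x hx
    rw [cst_pow_add hx, h x hx]
  -- the minimal exponent
  let P : ℕ → Prop := fun b => ∃ g, Fr g b
  have hPM : P M := ⟨1, fun x hx => hx.symm⟩
  have hP0 : P 0 := ⟨1, fun x _ => by rw [pow_zero, pow_one]; rfl⟩
  have hPadd : ∀ b b', P b → P b' → P (b + b') := fun b b' ⟨g, h⟩ ⟨g', h'⟩ => ⟨_, hadd h h'⟩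
  have hPsub : ∀ b d, P b → P (b + d) → P d := fun b d ⟨g, h⟩ ⟨g', h'⟩ => ⟨_, hsub h h'⟩
  have hex : ∃ b, 0 < b ∧ P b := ⟨M, hM, hPM⟩
  set c := Nat.find hex with hc
  obtain ⟨hc0, hcP⟩ := Nat.find_spec hex
  rw [← hc] at hc0 hcP
  have hPmul : ∀ i, P (c * i) := by
    intro i
    induction i with
    | zero => exact hP0
    | succ i ih => rw [Nat.mul_succ]; exact hPadd _ _ ih hcP
  have hdvd : ∀ b, P b → c ∣ b := by
    intro b hb
    have h1 : P (b % c) := by
      refine hPsub (c * (b / c)) _ (hPmul _) ?_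
      rwa [add_comm, Nat.mod_add_div]
    by_contra h3
    have h4 : 0 < b % c := Nat.pos_of_ne_zero fun h => h3 (Nat.dvd_of_mod_eq_zero h)
    exact Nat.find_min hex (Nat.mod_lt b hc0) ⟨h4, h1⟩
  obtain ⟨n, hn⟩ := hdvd M hPM
  have hn0 : 0 < n := Nat.pos_of_ne_zero fun h => by rw [h, mul_zero] at hn; omega
  obtain ⟨σ, hσ⟩ := hcP
  have hσi : ∀ i : ℕ, Fr (σ ^ i) (c * i) := by
    intro i
    induction i with
    | zero =>
      intro x _
      rw [mul_zero, pow_zero, pow_zero, pow_one]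
      rfl
    | succ i ih =>
      rw [pow_succ, Nat.mul_succ]
      exact hadd ih hσ
  -- the exponent
  have hexp : ∀ g : Om ≃ₐ[K] Om, ∃ i : ℕ, i < n ∧ Fr g (c * i) := by
    intro g
    obtain ⟨b, hb, hb2⟩ := hfr g
    obtain ⟨i, rfl⟩ := hdvd b ⟨g, hb2⟩
    refine ⟨i, ?_, hb2⟩
    rw [hn] at hb
    exact lt_of_mul_lt_mul_left hb (Nat.zero_le _)
  choose ex hex1 hex2 using hexp
  have hexuniq : ∀ (g : Om ≃ₐ[K] Om) (i : ℕ), i < n → Fr g (c * i) → ex g = i := by
    intro g i hi h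
    have h1 := huni (hex2 g) h
    have hlt : ∀ i, i < n → c * i < M := fun i hi => by
      rw [hn]; exact Nat.mul_lt_mul_of_pos_left hi hc0
    rw [Nat.mod_eq_of_lt (hlt _ (hex1 g)), Nat.mod_eq_of_lt (hlt _ hi)] at h1
    exact Nat.eq_of_mul_eq_mul_left hc0 h1
  refine ⟨c, n, σ, ex, hn0, hn, ⟨hex1, fun g => ?_, fun g i hi hg => ?_, ?_⟩, fun g b hb => ?_⟩
  · intro x hx
    change g ((σ ^ ex g)⁻¹ x) = x
    have hy : ((σ ^ ex g)⁻¹ x) ^ (q ^ M) = (σ ^ ex g)⁻¹ x := by rw [← map_pow, hx]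
    rw [hex2 g _ hy, ← hσi (ex g) _ hy]
    exact (σ ^ ex g).apply_symm_apply x
  · refine hexuniq g i hi fun x hx => ?_
    have hy : ((σ ^ i) x) ^ (q ^ M) = (σ ^ i) x := by
      rw [← map_pow, hx]
    have h1 := hg ((σ ^ i) x) hy
    have h3 : (g * (σ ^ i)⁻¹) ((σ ^ i) x) = g x := by
      change g ((σ ^ i)⁻¹ ((σ ^ i) x)) = g x
      congr 1
      exact (σ ^ i).symm_apply_apply x
    rw [h3] at h1
    rw [h1]
    exact hσi i x hx
  · intro x hx
    rw [hσi n x hx, ← hn, hx]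
  · obtain ⟨i, rfl⟩ := hdvd b ⟨g, hb⟩
    refine ⟨i, ((i / n : ℕ) : ℤ), by push_cast; ring, ?_⟩
    have h1 : ex g = i % n := by
      refine hexuniq g _ (Nat.mod_lt i hn0) fun x hx => ?_
      rw [hb x hx]
      have h3 : c * i = c * (i % n) + M * (i / n) := by
        rw [hn, mul_assoc, ← mul_add, Nat.mod_add_div]
      rw [h3, cst_pow_add hx]
    rw [h1]
    have h3 := Nat.mod_add_div i n
    exact_mod_cast h3.symm

end gal

end Pool.Agent.SmN.R
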