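import Pool.Agent.Lib.SmN.R.Cst

/-!
# Reciprocity for `H^2(K, ZMod 2)`, module Hb: Hilbert 90 for subgroups of `Gal(Om / K)`, the groups
`Hc` are open
-/

set_option autoImplicit false

open Polynomial

namespace Pool.Agent.SmN.R

variable {K Om : Type*} [Field K] [Field Om] [Algebra K Om]

/-- Hilbert 90 for any subgroup, locally constant cocycles. -/
theorem h90K [IsGalois K Om] (A : Subgroup (Om ≃ₐ[K] Om)) (z : (Om ≃ₐ[K] Om) → Omˣ)
    (hz : ∃ N : Subgroup (Om ≃ₐ[K] Om), N.Normal ∧ IsOpen (N : Set (Om ≃ₐ[K] Om)) ∧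
      ∀ s ∈ A, ∀ n ∈ N, n ∈ A → z (s * n) = z s) (hc : ∀ s ∈ A, ∀ t ∈ A, z (s * t) = z s * s • z t) :
    ∃ y : Omˣ, ∀ s ∈ A, z s = s • y * y⁻¹ := by
  classical
  obtain ⟨N, hN, hNo, hzN⟩ := hz
  have hfin : Finite ((Om ≃ₐ[K] Om) ⧸ N) := Subgroup.quotient_finite_of_isOpen N hNo
  have : Fintype ((Om ≃ₐ[K] Om) ⧸ N) := Fintype.ofFinite _
  have hNcl : IsClosed (N : Set ((Om ≃ₐ[K] Om))) := Subgroup.isClosed_of_isOpen N hNo
  let L : IntermediateField (K) Om := IntermediateField.fixedField N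
  have hL : ∀ x : Om, x ∈ L ↔ ∀ n ∈ N, n x = x := fun x => IntermediateField.mem_fixedField_iff N x
  have hLN : ∀ g : (Om ≃ₐ[K] Om), (∀ x ∈ L, g x = x) → g ∈ N := by
    intro g hg
    have h3 := InfiniteGalois.fixingSubgroup_fixedField (k := K) (K := Om) ⟨N, hNcl⟩
    have h4 : g ∈ (IntermediateField.fixedField N).fixingSubgroup := by
      rw [IntermediateField.mem_fixingSubgroup_iff]
      exact hg
    rwa [show (IntermediateField.fixedField N).fixingSubgroup = N from h3] at h4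
  -- the image of `A` and representatives in `A`
  let T : Finset ((Om ≃ₐ[K] Om) ⧸ N) :=
    Finset.univ.filter fun q => ∃ a ∈ A, (QuotientGroup.mk a : (Om ≃ₐ[K] Om) ⧸ N) = q
  have hT : ∀ q, q ∈ T ↔ ∃ a ∈ A, (QuotientGroup.mk a : (Om ≃ₐ[K] Om) ⧸ N) = q := by
    intro q
    simp [T]
  have hrep : ∀ q : (Om ≃ₐ[K] Om) ⧸ N, ∃ a : (Om ≃ₐ[K] Om), q ∈ T → a ∈ A ∧ (QuotientGroup.mk a : (Om ≃ₐ[K] Om) ⧸ N) = q := by
    intro q
    by_cases hq : q ∈ T
    · obtain ⟨a, ha, h⟩ := (hT q).1 hq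
      exact ⟨a, fun _ => ⟨ha, h⟩⟩
    · exact ⟨1, fun h => absurd h hq⟩
  choose a ha using hrep
  -- the characters
  let φ : T → (L →* Om) := fun q =>
    { toFun := fun x => a q (x : Om)
      map_one' := by simp
      map_mul' := fun x y => by simp }
  have hφinj : Function.Injective φ := by
    intro q q' h
    apply Subtype.ext
    rw [← (ha q q.2).2, ← (ha q' q'.2).2, QuotientGroup.eq]
    apply hLN
    intro x hx
    have h1 : a q x = a q' x := DFunLike.congr_fun h ⟨x, hx⟩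
    rw [AlgEquiv.mul_apply, ← h1, ← AlgEquiv.mul_apply, inv_mul_cancel, AlgEquiv.one_apply]
  have hli := (linearIndependent_monoidHom L Om).comp φ hφinj
  -- an element with nonzero sum
  obtain ⟨x, hx, hb⟩ : ∃ x : Om, x ∈ L ∧ ∑ q ∈ T, (z (a q) : Om) * a q x ≠ 0 := by
    by_contra hcon
    push Not at hcon
    have h1 : ∑ q : T, (z (a q) : Om) • (⇑(φ q) : L → Om) = 0 := by
      funext x
      rw [Finset.sum_apply]
      have h2 := hcon (x : Om) x.2
      rw [← Finset.sum_coe_sort T] at h2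
      exact h2
    have h3 : (QuotientGroup.mk (1 : (Om ≃ₐ[K] Om)) : (Om ≃ₐ[K] Om) ⧸ N) ∈ T := (hT _).2 ⟨1, A.one_mem, rfl⟩
    have h4 := (Fintype.linearIndependent_iff.1 hli) (fun q => (z (a q) : Om)) h1 ⟨_, h3⟩
    exact (z _).ne_zero h4
  set b : Om := ∑ q ∈ T, (z (a q) : Om) * a q x with hbdef
  -- the transformation rule
  have key : ∀ h ∈ A, (z h : Om) * h b = b := by
    intro h hh
    rw [hbdef, map_sum, Finset.mul_sum]
    refine Finset.sum_nbij' (fun q => h • q) (fun q => h⁻¹ • q) ?_ ?_ ?_ ?_ ?_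
    · intro q hq
      obtain ⟨c, hcA, hcq⟩ := (hT q).1 hq
      exact (hT _).2 ⟨h * c, A.mul_mem hh hcA, by rw [← hcq]; rfl⟩
    · intro q hq
      obtain ⟨c, hcA, hcq⟩ := (hT q).1 hq
      exact (hT _).2 ⟨h⁻¹ * c, A.mul_mem (A.inv_mem hh) hcA, by rw [← hcq]; rfl⟩
    · intro q _
      exact inv_smul_smul h q
    · intro q _
      exact smul_inv_smul h q
    · intro q hq
      have hq' : h • q ∈ T := by
        obtain ⟨c, hcA, hcq⟩ := (hT q).1 hq
        exact (hT _).2 ⟨h * c, A.mul_mem hh hcA, by rw [← hcq]; rfl⟩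
      obtain ⟨ha1, ha2⟩ := ha q hq
      obtain ⟨ha3, ha4⟩ := ha (h • q) hq'
      -- `a (h q) = h (a q) n`
      have h5 : (h * a q)⁻¹ * a (h • q) ∈ N := by
        rw [← QuotientGroup.eq, ha4,
          show (QuotientGroup.mk (h * a q) : (Om ≃ₐ[K] Om) ⧸ N) = h • (QuotientGroup.mk (a q)) from rfl,
          ha2]
      have h6 : (h * a q)⁻¹ * a (h • q) ∈ A :=
        A.mul_mem (A.inv_mem (A.mul_mem hh ha1)) ha3
      have h7 : a (h • q) = h * a q * ((h * a q)⁻¹ * a (h • q)) := by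
        rw [mul_inv_cancel_left]
      have h8 : z (a (h • q)) = z h * h • z (a q) := by
        rw [h7, hzN _ (A.mul_mem hh ha1) _ h5 h6, hc h hh _ ha1]
      have h9 : a (h • q) x = h (a q x) := by
        rw [h7, AlgEquiv.mul_apply, (hL x).1 hx _ h5]
        rfl
      rw [h8, h9, map_mul, Units.val_mul, mul_assoc]
      rfl
  refine ⟨(Units.mk0 b hb)⁻¹, fun s hs => ?_⟩
  have h10 : z s * s • Units.mk0 b hb = Units.mk0 b hb := by
    apply Units.ext
    exact key s hs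
  rw [smul_inv', inv_inv]
  rw [eq_comm, inv_mul_eq_iff_eq_mul, mul_comm]
  exact h10.symm


theorem finite_cst {k : Type*} [Finite k] [Nontrivial k] {M : ℕ} (hM : 0 < M) :
    {x : Om | x ^ (Nat.card k ^ M) = x}.Finite := by
  have hq : 1 < Nat.card k ^ M := Nat.one_lt_pow hM.ne' Finite.one_lt_card
  have h0 : (X ^ (Nat.card k ^ M) - X : Polynomial Om) ≠ 0 := FiniteField.X_pow_card_sub_X_ne_zero Om hq
  refine (Polynomial.finite_setOfPred_isRoot h0).subset fun x hx => ?_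
  change IsRoot _ x
  rw [IsRoot.def, eval_sub, eval_pow, eval_X]
  exact sub_eq_zero.2 hx

theorem isOpen_Hc {k : Type*} [Finite k] [Nontrivial k] [Algebra.IsIntegral K Om] {M : ℕ} (hM : 0 < M) :
    IsOpen (Hc K Om (Nat.card k) M : Set (Om ≃ₐ[K] Om)) := by
  have h1 : (Hc K Om (Nat.card k) M : Set (Om ≃ₐ[K] Om)) =
      ⋂ x ∈ {x : Om | x ^ (Nat.card k ^ M) = x},
        (MulAction.stabilizer (Om ≃ₐ[K] Om) x : Set (Om ≃ₐ[K] Om)) := by
    ext g
    rw [Set.mem_iInter₂]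
    exact Iff.rfl
  rw [h1]
  exact (finite_cst (k := k) hM).isOpen_biInter fun x _ => stabilizer_isOpen_of_isIntegral (K := K) x

end Pool.Agent.SmN.R
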