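import Pool.Agent.Lib.SmN.R.LocK
import Pool.Agent.Lib.SmN.Loc.InvM
import Pool.Agent.Lib.SmN.P.RecZ
import Pool.Agent.Lib.GBU.Div
import Pool.Agent.Lib.GBC.E.Main

/-!
# Reciprocity for `H^2(K, ZMod 2)`, module RecK

`TsenK k K Om` (input): a 2-cocycle with values in `μ_(2^e)` splits over the constants.
`recM_of_tsen`, `recI_of_tsen`: `RecM` and `RecI` for the chosen elements over the global function
field `K`.
-/

set_option autoImplicit false

open IsLocalRing Finset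

namespace Pool.Agent.SmN.R

open Pool.Agent.BSDFF Pool.Agent.Lib.SmD Pool.Agent.SmD Pool.Agent.GBC Pool.Agent.GBU
open Pool.Agent.SmithC Pool.Agent.SmP

/-- Input: a 2-cocycle with values in `μ_(2^e)` splits over a finite extension of the constants. -/
def TsenK (k K Om : Type) [Field k] [Field K] [Field Om] [Algebra K Om] : Prop :=
  ∀ (e : ℕ) (c : (Om ≃ₐ[K] Om) → (Om ≃ₐ[K] Om) → Omˣ), (∀ s t, c s t ^ 2 ^ e = 1) →
    (∃ N : Subgroup (Om ≃ₐ[K] Om), N.Normal ∧ IsOpen (N : Set (Om ≃ₐ[K] Om)) ∧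
      ∀ s t, ∀ n ∈ N, ∀ m ∈ N, c (s * n) (t * m) = c s t) →
    (∀ s t w, c s t * c (s * t) w = s • c t w * c s (t * w)) →
    ∃ (M : ℕ) (b : (Om ≃ₐ[K] Om) → Omˣ), 0 < M ∧
      (∃ N : Subgroup (Om ≃ₐ[K] Om), N.Normal ∧ IsOpen (N : Set (Om ≃ₐ[K] Om)) ∧
        ∀ s ∈ Hc K Om (Nat.card k) M, ∀ n ∈ N, n ∈ Hc K Om (Nat.card k) M → b (s * n) = b s) ∧
      ∀ s ∈ Hc K Om (Nat.card k) M, ∀ t ∈ Hc K Om (Nat.card k) M,
        c s t = b s * s • b t * (b (s * t))⁻¹

section rec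

variable {k K : Type} [Field k] [Finite k] [Field K] [Algebra k K] [Algebra (RatFunc k) K]
  [IsScalarTower k (RatFunc k) K] [FiniteDimensional (RatFunc k) K]
  [Algebra.IsSeparable (RatFunc k) K] {Om : Type} [Field Om] [Algebra K Om] [IsSepClosure K Om]

/-- Reciprocity, multiplicatively, for normalised cocycles. -/
theorem recU (hTs : TsenK k K Om) (h2 : (2 : k) ≠ 0) {e : ℕ}
    {f : (Om ≃ₐ[K] Om) → (Om ≃ₐ[K] Om) → Omˣ} (hmu : ∀ s t, f s t ^ 2 ^ e = 1)
    (hN : ∃ N ∈ NP K Om, ∀ s t, ∀ n ∈ N, ∀ m ∈ N, f (s * n) (t * m) = f s t)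
    (hc : ∀ s t w, f s t * f (s * t) w = s • f t w * f s (t * w)) (h11 : f 1 1 = 1)
    (hinv : ∀ v : Place k K, invU (sgK Om v) (phK Om v) (qK v) f ^ 2 = 1) :
    ∃ D : Place k K →₀ ℤ, D.sum (fun _ n => n) = 0 ∧
      ∀ v, invU (sgK Om v) (phK Om v) (qK v) f = (-1) ^ D v := by
  classical
  have hg : IsGalois K Om := IsSepClosure.isGalois
  have hsc : IsSepClosed Om := IsSepClosure.sep_closed K
  obtain ⟨N0, hN0, hfN⟩ := hN
  have hN0n := NP.normal hN0
  obtain ⟨M, b, hM, ⟨N1, hN1n, hN1o, hb1⟩, hb⟩ := hTs e f hmu ⟨N0, hN0n, NP.isOpen hN0, hfN⟩ hc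
  obtain ⟨c, n, σ, ex, hn0, hMn, he, hfr⟩ := exists_expo (K := K) (Om := Om) h2 hM
  set H := Hc K Om (Nat.card k) M with hH
  have hHn : H.Normal := Hc_normal _ _
  have hHo : IsOpen (H : Set (Om ≃ₐ[K] Om)) := isOpen_Hc (k := k) hM
  let φ : (Om ≃ₐ[K] Om) →* MulAut Omˣ := MulDistribMulAction.toMulAut (Om ≃ₐ[K] Om) Omˣ
  have hcoc : IsTwoCoc φ f := hc
  obtain ⟨a, B, ha, hB, hs⟩ := cyc (φ := φ) hcoc H (N0 ⊓ H) inf_le_right
    (fun s t n hn m hm => hfN s t n hn.1 m hm.1) h11 (b := b) hb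
    (by
      refine h90K (N0 ⊓ H) b ⟨N1, hN1n, hN1o, fun s hs n hn hn' => hb1 s hs.2 n hn hn'.2⟩ ?_
      intro s hs t ht
      have h1 := hb s hs.2 t ht.2
      have h3 := hfN 1 1 s hs.1 t ht.1
      rw [one_mul, one_mul, h11] at h3
      rw [h3] at h1
      exact (mul_inv_eq_one.1 h1.symm).symm)
    (fun l hl1 hl2 => h90K H l ⟨N0 ⊓ H, inferInstance, by
      rw [Subgroup.coe_inf]
      exact (NP.isOpen hN0).inter hHo, fun s hs n hn _ => hl1 s hs n hn⟩ hl2) he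
  have hT : Shape f a B n ex := hs
  obtain ⟨a0, ha0⟩ : ∃ a0 : K, algebraMap K Om a0 = (a : Om) := by
    have h1 : ((a : Om)) ∈ (⊥ : IntermediateField K Om) := by
      rw [InfiniteGalois.mem_bot_iff_fixed]
      intro g
      exact congrArg (fun u : Omˣ => (u : Om)) (ha g)
    rwa [IntermediateField.mem_bot] at h1
  have ha00 : a0 ≠ 0 := by
    rintro rfl
    rw [map_zero] at ha0
    exact a.ne_zero ha0.symm
  obtain ⟨j, m, hm, hjm⟩ := Nat.exists_eq_two_pow_mul_odd hn0.ne'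
  have key := fun v : Place k K => locK (Om := Om) h2 v hmu hN0 hM he hfr hm hjm hT hB ha00
    ha0.symm (hinv v)
  choose D hD1 _ hD3 using key
  obtain ⟨G, -⟩ := exists_geo k K
  obtain ⟨P, hP⟩ := exists_pdiv G ha00
  have hc0 : ((c : ℤ) * 2 ^ j) ≠ 0 := by
    refine mul_ne_zero ?_ (pow_ne_zero _ two_ne_zero)
    rintro h
    have h1 : c = 0 := by exact_mod_cast h
    rw [h1, zero_mul] at hMn
    omega
  have hsup : ∀ v, D v ≠ 0 → v ∈ P.support := by
    intro v hv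
    rw [Finsupp.mem_support_iff, hP]
    intro h0
    apply hv
    have h1 := hD1 v
    rw [h0, mul_zero, mul_zero] at h1
    exact (mul_eq_zero.1 h1).resolve_left hc0
  refine ⟨Finsupp.onFinset P.support D hsup, ?_, fun v => hD3 v⟩
  rw [Finsupp.onFinset_sum _ (fun _ => rfl)]
  have h3 : (c : ℤ) * 2 ^ j * ∑ v ∈ P.support, D v = 2 * degD P := by
    rw [mul_sum, sum_congr rfl fun v _ => hD1 v, degD, Finsupp.sum, mul_sum]
    exact sum_congr rfl fun v _ => by rw [hP]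
  rw [degD_prin G ⟨a0, ha00, hP⟩, mul_zero] at h3
  exact (mul_eq_zero.1 h3).resolve_left hc0

omit [Algebra (RatFunc k) K] [IsScalarTower k (RatFunc k) K] [FiniteDimensional (RatFunc k) K]
  [Algebra.IsSeparable (RatFunc k) K] [Finite k] [Field k] [Algebra k K] in
theorem exists_tors_bound {S : Set (MuT Om)} (hS : S.Finite) :
    ∃ e : ℕ, ∀ u ∈ S, (2 : ℕ) ^ e • u = 0 := by
  refine Set.Finite.induction_on _ hS ⟨0, fun u hu => absurd hu (Set.notMem_empty u)⟩ ?_
  rintro a S - - ⟨e, he⟩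
  obtain ⟨j, hj⟩ := a.tors
  refine ⟨e + j, fun u hu => ?_⟩
  rcases hu with rfl | hu
  · rw [pow_add, mul_smul, hj, smul_zero]
  · rw [pow_add, mul_comm, mul_smul, he u hu, smul_zero]

end rec

section add

variable {k K : Type} [Field k] [Finite k] [Field K] [Algebra k K] [Algebra (RatFunc k) K]
  [IsScalarTower k (RatFunc k) K] [FiniteDimensional (RatFunc k) K]
  [Algebra.IsSeparable (RatFunc k) K] {Om : Type} [Field Om] [Algebra K Om]

/-- The multiplicative form of a cochain. -/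
def mulF (f : (Om ≃ₐ[K] Om) → (Om ≃ₐ[K] Om) → MuT Om) (s t : Om ≃ₐ[K] Om) : Omˣ :=
  Additive.toMul (f s t).1

omit [Algebra (RatFunc k) K] [IsScalarTower k (RatFunc k) K] [FiniteDimensional (RatFunc k) K]
  [Algebra.IsSeparable (RatFunc k) K] [Finite k] [Field k] [Algebra k K] in
theorem invU_mulF (sg ph : Om ≃ₐ[K] Om) (q : ℕ) (f : (Om ≃ₐ[K] Om) → (Om ≃ₐ[K] Om) → MuT Om) :
    invU sg ph q (mulF f) = Additive.toMul (Loc.invM sg ph q f).1 := by
  have h1 : (Loc.invM sg ph q f).1 = (f ph sg).1 - (f (sg ^ q) ph).1 -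
      ∑ i ∈ Ico 1 q, (f (sg ^ i) sg).1 := by
    unfold Loc.invM
    rw [AddSubgroup.coe_sub, AddSubgroup.coe_sub, AddSubgroup.val_finsetSum]
  rw [h1, toMul_sub, toMul_sub, toMul_sum]
  unfold invU mulF
  rw [div_eq_mul_inv, div_eq_mul_inv]

variable [IsSepClosure K Om] {V V1 : Type*} [AddCommGroup V] [DistribMulAction (Om ≃ₐ[K] Om) V]
  [AddCommGroup V1] [Module (ZMod 2) V1]

/-- `RecM` over a global function field. -/
theorem recM_of_tsen (hTs : TsenK k K Om) (h2 : (2 : k) ≠ 0)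
    (S : Sys (Om ≃ₐ[K] Om) V V1 (Place k K)) (hNN : S.NN = NP K Om)
    (hsg : ∀ v, S.sg v = sgK Om v) (hphi : ∀ v, S.phi v = phK Om v) :
    S.RecM (MuT Om) qK := by
  classical
  have hg : IsGalois K Om := IsSepClosure.isGalois
  have hsc : IsSepClosed Om := IsSepClosure.sep_closed K
  have h2K : (2 : K) ≠ 0 := two_ne_K h2
  have h2O : (2 : Om) ≠ 0 := by
    have := (map_ne_zero_iff _ (algebraMap K Om).injective).2 h2K
    rwa [map_ofNat] at this
  intro f hf hcoc hinv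
  obtain ⟨N0, hN0, hfN⟩ := hf
  rw [hNN] at hN0
  simp only [hsg, hphi] at hinv ⊢
  obtain ⟨p, -, hp, hpo, -, -, hch⟩ := exists_char k K Om h2
  have hpf : Fact p.Prime := ⟨hp⟩
  set m := f 1 1 with hm
  obtain ⟨N', hN', hNm⟩ := MuT.act (K := K) h2O m
  have hN1 : N0 ⊓ N' ∈ NP K Om := inf_mem_NP hN0 (NN_subset_NP h2K hN')
  set f' : (Om ≃ₐ[K] Om) → (Om ≃ₐ[K] Om) → MuT Om := fun s t => f s t - s • m with hf'
  have hfN' : ∀ s t, ∀ n ∈ N0 ⊓ N', ∀ n' ∈ N0 ⊓ N', f' (s * n) (t * n') = f' s t := by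
    intro s t n hn n' hn'
    rw [hf']
    beta_reduce
    rw [hfN s t n hn.1 n' hn'.1, mul_smul, hNm n hn.2]
  have hcoc' : ∀ s t w, f' s t + f' (s * t) w = s • f' t w + f' s (t * w) := by
    intro s t w
    rw [hf']
    beta_reduce
    have h1 := hcoc s t w
    rw [smul_sub, smul_smul]
    have h3 : f s t - s • m + (f (s * t) w - (s * t) • m) =
        (f s t + f (s * t) w) - s • m - (s * t) • m := by abel
    rw [h3, h1]
    abel
  have h11 : f' 1 1 = 0 := by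
    rw [hf']
    beta_reduce
    rw [← hm, one_smul, sub_self]
  have hinv' : ∀ v : Place k K, Loc.invM (sgK Om v) (phK Om v) (qK v) f' =
      Loc.invM (sgK Om v) (phK Om v) (qK v) f := by
    intro v
    have h1 : f = fun s t => f' s t + ((fun _ => m) s + s • (fun _ => m) t - (fun _ => m) (s * t)) := by
      funext s t
      rw [hf']
      beta_reduce
      abel
    conv_rhs => rw [h1]
    rw [Loc.invM_add, Loc.invM_d (odd_qK h2 v).pos (fun u => u.smul_iner hpo (sgK_iner h2 v))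
      (fun u => by
        rw [MuT.smul_frob hpo (phK_frob v), resCard_below (below_abK Om v)]) _ rfl, add_zero]
  -- a bound for the torsion
  obtain ⟨e, he⟩ : ∃ e : ℕ, ∀ s t, (2 : ℕ) ^ e • f' s t = 0 := by
    have hNn := NP.normal hN1
    have hfin : Finite ((Om ≃ₐ[K] Om) ⧸ (N0 ⊓ N')) :=
      Subgroup.quotient_finite_of_isOpen _ (NP.isOpen hN1)
    let F : ((Om ≃ₐ[K] Om) ⧸ (N0 ⊓ N')) × ((Om ≃ₐ[K] Om) ⧸ (N0 ⊓ N')) → MuT Om :=
      fun x => f' x.1.out x.2.out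
    obtain ⟨e, he⟩ := exists_tors_bound (Set.finite_range F)
    refine ⟨e, fun s t => ?_⟩
    obtain ⟨n, hn⟩ := QuotientGroup.mk_out_eq_mul (N0 ⊓ N') s
    obtain ⟨n', hn'⟩ := QuotientGroup.mk_out_eq_mul (N0 ⊓ N') t
    have h1 : f' s t = F (s, t) := by
      change f' s t = f' (s : (Om ≃ₐ[K] Om) ⧸ (N0 ⊓ N')).out (t : (Om ≃ₐ[K] Om) ⧸ (N0 ⊓ N')).out
      rw [hn, hn', hfN' s t _ n.2 _ n'.2]
    rw [h1]
    exact he _ ⟨_, rfl⟩
  have hpowU : ∀ (u : MuT Om) (i : ℕ), Additive.toMul (i • u).1 = Additive.toMul u.1 ^ i := by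
    intro u i
    rw [AddSubgroup.coe_nsmul, toMul_nsmul]
  obtain ⟨D, hD0, hD⟩ := recU hTs h2 (e := e) (f := mulF f')
    (fun s t => by
      unfold mulF
      rw [← hpowU, he s t]
      rfl)
    ⟨N0 ⊓ N', hN1, fun s t n hn n' hn' => by
      unfold mulF
      rw [hfN' s t n hn n' hn']⟩
    (fun s t w => by
      have h1 := congrArg (fun u : MuT Om => Additive.toMul u.1) (hcoc' s t w)
      exact h1)
    (by
      unfold mulF
      rw [h11]
      rfl)
    (fun v => by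
      rw [invU_mulF, ← hpowU, hinv' v, hinv v]
      rfl)
  let ε : MuT Om := MuT.mk (-1) 1 (by norm_num)
  have hε : Additive.toMul ε.1 = (-1 : Omˣ) := Units.ext rfl
  have h3 : ∀ v : Place k K, Loc.invM (sgK Om v) (phK Om v) (qK v) f = D v • ε := by
    intro v
    rw [← hinv' v]
    apply Subtype.ext
    apply Additive.toMul.injective
    rw [← invU_mulF, hD v, AddSubgroup.coe_zsmul, toMul_zsmul, hε]
  rw [finsum_congr h3, finsum_eq_sum_of_support_subset (s := D.support) _ (fun v hv => by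
    rw [Finset.mem_coe, Finsupp.mem_support_iff]
    intro h0
    apply hv
    change D v • ε = 0
    rw [h0, zero_smul]), ← sum_smul]
  have h4 : ∑ v ∈ D.support, D v = 0 := hD0
  rw [h4, zero_smul]

/-- `RecI` over a global function field. -/
theorem recI_of_tsen (hTs : TsenK k K Om) (h2 : (2 : k) ≠ 0)
    (S : Sys (Om ≃ₐ[K] Om) V V1 (Place k K)) (hNN : S.NN = NP K Om)
    (hsg : ∀ v, S.sg v = sgK Om v) (hphi : ∀ v, S.phi v = phK Om v) : S.RecI qK := by
  classical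
  have hsc : IsSepClosed Om := IsSepClosure.sep_closed K
  have h2K : (2 : K) ≠ 0 := two_ne_K h2
  have h2O : (2 : Om) ≠ 0 := by
    have := (map_ne_zero_iff _ (algebraMap K Om).injective).2 h2K
    rwa [map_ofNat] at this
  have hact : ∀ (s : Om ≃ₐ[K] Om) (a : ZMod 2), s • hfM Om a = hfM Om a := by
    intro s a
    have h01 : a = 0 ∨ a = 1 := by
      revert a
      decide
    rcases h01 with rfl | rfl
    · rw [map_zero, smul_zero]
    · apply MuT.el_inj
      rw [MuT.el_smul, hfM_one, el_zet_one h2O, map_neg, map_one]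
  have h2a : ∀ a : ZMod 2, (2 : ℕ) • hfM Om a = 0 := fun a => Sys.two_hf' (hfM Om) a
  intro c hc hcoc
  obtain ⟨N, hN, hcN⟩ := hc
  have h1 := recM_of_tsen hTs h2 S hNN hsg hphi (fun s t => hfM Om (c s t))
    ⟨N, hN, fun s t n hn m hm => congrArg (hfM Om) (hcN s t n hn m hm)⟩
    (fun s t w => by
      rw [hact, ← map_add, ← map_add, hcoc])
    (fun v => by rw [Loc.invM_hf, h2a])
  simp only [Loc.invM_hf] at h1
  by_cases hfin : (Function.support fun v =>
      Loc.inv (S.sg v) (S.phi v) (qK v) c).Finite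
  · apply hfM_inj h2O
    rw [map_zero, ← h1, AddMonoidHom.map_finsum (hfM Om) hfin]
  · exact finsum_of_infinite_support hfin

end add

end Pool.Agent.SmN.R
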