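import Pool.Agent.Lib.SmN.R.RecK
import Pool.Agent.Lib.GBU.H.LevO
import Pool.Agent.Lib.GBU.Sub

/-!
# Reciprocity for `H^2(K, ZMod 2)`, module TsenK: the input `TsenK` (Tsen's theorem over `K`)

Transport of `levelO` from the open subgroups of `Gal(Om / k(t))`; `recMK`, `recIK`: `RecM` and
`RecI` over the global function field `K`.
-/

set_option autoImplicit false

namespace Pool.Agent.SmN.R

open Pool.Agent.BSDFF Pool.Agent.SmithC Pool.Agent.Lib.SmD Pool.Agent.GBU Pool.Agent.GBUH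
open Pool.Agent.SmP

section top

variable {F K Ω : Type} [Field F] [Field K] [Algebra F K] [Field Ω] [Algebra F Ω] [Algebra K Ω]
  [IsScalarTower F K Ω]

/-- the restriction to `Gal(Ω / K)` of an open subgroup is open -/
private theorem tsenK_comap_open [Algebra.IsAlgebraic K Ω] (N : Subgroup (Ω ≃ₐ[F] Ω))
    (hN : IsOpen (N : Set (Ω ≃ₐ[F] Ω))) :
    IsOpen ((N.comap (res F : (Ω ≃ₐ[K] Ω) →* (Ω ≃ₐ[F] Ω)) : Subgroup (Ω ≃ₐ[K] Ω)) :
      Set (Ω ≃ₐ[K] Ω)) := by
  obtain ⟨E, hE, hEN⟩ := (krullTopology_mem_nhds_one_iff F Ω _).1 (hN.mem_nhds N.one_mem)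
  have hfg : (Subalgebra.toSubmodule E.toSubalgebra).FG :=
    (Submodule.fg_iff_finiteDimensional _).mpr hE
  obtain ⟨S, hS⟩ := IntermediateField.fg_of_fg_toSubalgebra E
    (Subalgebra.fg_of_fg_toSubmodule hfg)
  have hfd : FiniteDimensional K (IntermediateField.adjoin K (S : Set Ω)) :=
    IntermediateField.finiteDimensional_adjoin fun x _ =>
      (Algebra.IsAlgebraic.isAlgebraic x).isIntegral
  refine Subgroup.isOpen_mono (H₁ := (IntermediateField.adjoin K (S : Set Ω)).fixingSubgroup) ?_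
    (IntermediateField.fixingSubgroup_isOpen _)
  intro s hs
  rw [IntermediateField.mem_fixingSubgroup_iff] at hs
  rw [Subgroup.mem_comap]
  apply hEN
  rw [SetLike.mem_coe, IntermediateField.mem_fixingSubgroup_iff]
  intro x hx
  rw [← hS] at hx
  have hle : IntermediateField.adjoin F (S : Set Ω) ≤
      (IntermediateField.adjoin K (S : Set Ω)).restrictScalars F := by
    rw [IntermediateField.adjoin_le_iff]
    exact IntermediateField.subset_adjoin K _
  exact hs x (hle hx)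

end top

section

variable {k K Ω : Type} [Field k] [Finite k] [Field K] [Algebra k K] [Algebra (RatFunc k) K]
  [IsScalarTower k (RatFunc k) K] [FiniteDimensional (RatFunc k) K]
  [Algebra.IsSeparable (RatFunc k) K] [Field Ω] [Algebra K Ω] [IsSepClosure K Ω]

omit [Finite k] [Algebra k K] [IsScalarTower k (RatFunc k) K] [FiniteDimensional (RatFunc k) K] in
private theorem tsenK_sepClosure [Algebra (RatFunc k) Ω] [IsScalarTower (RatFunc k) K Ω] :
    IsSepClosure (RatFunc k) Ω := by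
  have h1 : Algebra.IsSeparable K Ω := IsSepClosure.separable
  have h2 : Algebra.IsSeparable (RatFunc k) Ω := Algebra.IsSeparable.trans (RatFunc k) K Ω
  exact ⟨IsSepClosure.sep_closed K, h2⟩

omit [Algebra k K] [IsScalarTower k (RatFunc k) K] in
private theorem tsenK_aux [Algebra (RatFunc k) Ω] [IsScalarTower (RatFunc k) K Ω]
    (h2 : (2 : k) ≠ 0) : TsenK k K Ω := by
  classical
  intro e c hM hc hcoc
  have hsep : IsSepClosure (RatFunc k) Ω := tsenK_sepClosure (k := k) (K := K)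
  have hnorm : Normal (RatFunc k) Ω := inferInstance
  have halg : Algebra.IsAlgebraic K Ω := inferInstance
  set R : (Ω ≃ₐ[K] Ω) →* GG k Ω := res (RatFunc k) with hR
  have hRinj : Function.Injective R := res_injective (RatFunc k)
  set A : Subgroup (GG k Ω) := rg (RatFunc k) K Ω with hA
  have hAo : IsOpen (A : Set (GG k Ω)) := isOpen_rg (RatFunc k)
  have hRA : ∀ s, R s ∈ A := fun s => ⟨s, rfl⟩
  -- the inverse
  have hex : ∀ s : GG k Ω, ∃ s' : Ω ≃ₐ[K] Ω, s ∈ A → R s' = s := by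
    intro s
    by_cases hs : s ∈ A
    · obtain ⟨s', hs'⟩ := hs
      exact ⟨s', fun _ => hs'⟩
    · exact ⟨1, fun h => absurd h hs⟩
  choose r hr using hex
  have hrR : ∀ s, r (R s) = s := fun s => hRinj (hr _ (hRA s))
  have hrmul : ∀ s ∈ A, ∀ t ∈ A, r (s * t) = r s * r t := by
    intro s hs t ht
    apply hRinj
    rw [hr _ (A.mul_mem hs ht), map_mul, hr s hs, hr t ht]
  have hsmul : ∀ (s : Ω ≃ₐ[K] Ω) (u : Ωˣ), R s • u = s • u := fun s u => Units.ext rfl
  have hsmul' : ∀ s ∈ A, ∀ u : Ωˣ, s • u = r s • u := by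
    intro s hs u
    rw [← hsmul, hr s hs]
  -- open normal subgroups
  have hN : ∀ N : Subgroup (Ω ≃ₐ[K] Ω), IsOpen (N : Set (Ω ≃ₐ[K] Ω)) →
      ∃ N' : Subgroup (GG k Ω), N'.Normal ∧ IsOpen (N' : Set (GG k Ω)) ∧ N' ≤ A ∧
        ∀ n ∈ N', r n ∈ N := by
    intro N hN
    obtain ⟨N', h1, h3, h4⟩ := exists_normal_le (N.map R) (isOpen_map_res (RatFunc k) hN)
    refine ⟨N', h1, h3, ?_, ?_⟩
    · intro n hn
      obtain ⟨m, -, hm⟩ := h4 hn
      exact ⟨m, hm⟩
    · intro n hn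
      obtain ⟨m, hm, rfl⟩ := h4 hn
      rw [hrR]
      exact hm
  obtain ⟨M, hM0, b', hb'M, ⟨N', hN'n, hN'o, hN'⟩, hb'⟩ := levelO h2 e A hAo
    (fun s t => c (r s) (r t)) ⟨fun s t => hM _ _, by
      obtain ⟨N, -, hNo, hNc⟩ := hc
      obtain ⟨N', h1, h3, h4, h5⟩ := hN N hNo
      refine ⟨N', h1, h3, h4, fun s hs t ht n hn m hm => ?_⟩
      change c (r (s * n)) (r (t * m)) = c (r s) (r t)
      rw [hrmul s hs n (h4 hn), hrmul t ht m (h4 hm)]
      exact hNc _ _ _ (h5 n hn) _ (h5 m hm), by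
      intro s hs t ht u hu
      change c (r s) (r t) * c (r (s * t)) (r u) = s • c (r t) (r u) * c (r s) (r (t * u))
      rw [hrmul s hs t ht, hrmul t ht u hu, hsmul' s hs]
      exact hcoc _ _ _⟩
  have hRH : ∀ s ∈ Hc K Ω (Nat.card k) M, R s ∈ A ⊓ Hn k Ω M := by
    intro s hs
    exact ⟨hRA s, fun x hx => hs x hx⟩
  refine ⟨M, fun s => b' (R s), hM0, ⟨N'.comap R, inferInstance, tsenK_comap_open N' hN'o, ?_⟩,
    ?_⟩
  · intro s hs n hn hn'
    change b' (R (s * n)) = b' (R s)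
    rw [map_mul]
    exact hN' _ (hRH s hs) _ hn (hRH n hn')
  · intro s hs t ht
    have h1 := hb' (R s) (hRH s hs) (R t) (hRH t ht)
    change c (r (R s)) (r (R t)) = b' (R s) * R s • b' (R t) * (b' (R s * R t))⁻¹ at h1
    rw [hrR, hrR, hsmul, ← map_mul] at h1
    exact h1

variable (K Ω) in
omit [Algebra k K] [IsScalarTower k (RatFunc k) K] in
/-- Tsen's theorem over a global function field, at a finite level of the constants. -/
theorem tsenK (h2 : (2 : k) ≠ 0) : TsenK k K Ω := by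
  letI : Algebra (RatFunc k) Ω := ((algebraMap K Ω).comp (algebraMap (RatFunc k) K)).toAlgebra
  have : IsScalarTower (RatFunc k) K Ω := IsScalarTower.of_algebraMap_eq fun x => rfl
  exact tsenK_aux h2

variable {V V1 : Type*} [AddCommGroup V] [DistribMulAction (Ω ≃ₐ[K] Ω) V]
  [AddCommGroup V1] [Module (ZMod 2) V1]

/-- `RecM` over a global function field. -/
theorem recMK (h2 : (2 : k) ≠ 0) (S : Sys (Ω ≃ₐ[K] Ω) V V1 (Place k K)) (hNN : S.NN = NP K Ω)
    (hsg : ∀ v, S.sg v = sgK Ω v) (hphi : ∀ v, S.phi v = phK Ω v) : S.RecM (MuT Ω) qK :=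
  recM_of_tsen (tsenK K Ω h2) h2 S hNN hsg hphi

/-- `RecI` over a global function field. -/
theorem recIK (h2 : (2 : k) ≠ 0) (S : Sys (Ω ≃ₐ[K] Ω) V V1 (Place k K)) (hNN : S.NN = NP K Ω)
    (hsg : ∀ v, S.sg v = sgK Ω v) (hphi : ∀ v, S.phi v = phK Ω v) : S.RecI qK :=
  recI_of_tsen (tsenK K Ω h2) h2 S hNN hsg hphi

end

end Pool.Agent.SmN.R
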