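import Pool.Agent.Lib.GBU.Plc

/-!
# Reciprocity for `H^2(K, ZMod 2)`, module Two: the tame character and powers of 2
-/

set_option autoImplicit false

open IsLocalRing

namespace Pool.Agent.SmN.R

open Pool.Agent.GBU Pool.Agent.Lib.SmD Pool.Agent.SmD

variable {K Om : Type*} [Field K] [Field Om] [Algebra K Om]

/-- The tame character: `τ x / x` modulo the maximal ideal. -/
noncomputable def th (w : ValuationSubring Om) (τ : Om ≃ₐ[K] Om) (x : Om) : ResidueField w :=
  rr w (τ x / x)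

variable {w : ValuationSubring Om} {τ : Om ≃ₐ[K] Om}

theorem th_one : th w τ 1 = 1 := by
  rw [th, map_one, div_one, rr_one]

theorem rr_neg_one (w : ValuationSubring Om) : rr w (-1) = -1 := by
  rw [rr_of_mem (w.neg_mem _ w.one_mem)]
  change residue w (-1) = -1
  rw [map_neg, map_one]

theorem neg_one_ne_one (h2 : w.valuation 2 = 1) : (-1 : ResidueField w) ≠ 1 := by
  intro h
  have h1 : rr w (-1) = rr w 1 := by rw [rr_neg_one, rr_one, h]
  rw [rr_eq_iff (w.neg_mem _ w.one_mem) w.one_mem] at h1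
  have h3 : (-1 - 1 : Om) = -2 := by ring
  rw [h3, Valuation.map_neg, h2] at h1
  exact lt_irrefl _ h1

section alg

variable [Algebra.IsAlgebraic K Om]

theorem th_congr (hτ : τ ∈ iner K w) {x y : Om} (hx : x ≠ 0) (hy : y ≠ 0)
    (h : w.valuation x = w.valuation y) : th w τ x = th w τ y := ratio_eq hτ hx hy h

theorem th_mul (hτ : τ ∈ iner K w) {x y : Om} (hx : x ≠ 0) (hy : y ≠ 0) :
    th w τ (x * y) = th w τ x * th w τ y := by
  rw [th, th, th, map_mul, mul_div_mul_comm, rr_mul (ratio_mem hτ.1 hx) (ratio_mem hτ.1 hy)]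

theorem th_pow (hτ : τ ∈ iner K w) {x : Om} (hx : x ≠ 0) (n : ℕ) :
    th w τ (x ^ n) = th w τ x ^ n := by
  induction n with
  | zero => rw [pow_zero, pow_zero, th_one]
  | succ n ih => rw [pow_succ, pow_succ, th_mul hτ (pow_ne_zero n hx) hx, ih]

theorem th_inv (hτ : τ ∈ iner K w) {x : Om} (hx : x ≠ 0) : th w τ x⁻¹ = (th w τ x)⁻¹ := by
  have h := th_mul hτ hx (inv_ne_zero hx)
  rw [mul_inv_cancel₀ hx, th_one] at h
  exact (inv_eq_of_mul_eq_one_right h.symm).symm

theorem th_zpow (hτ : τ ∈ iner K w) {x : Om} (hx : x ≠ 0) (n : ℤ) :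
    th w τ (x ^ n) = th w τ x ^ n := by
  obtain ⟨m, rfl | rfl⟩ := n.eq_nat_or_neg
  · rw [zpow_natCast, zpow_natCast, th_pow hτ hx]
  · rw [zpow_neg, zpow_neg, zpow_natCast, zpow_natCast, th_inv hτ (pow_ne_zero m hx),
      th_pow hτ hx]

omit [Algebra.IsAlgebraic K Om] in
theorem th_neg {r : Om} (hr : r ≠ 0) (h : τ r = -r) : th w τ r = -1 := by
  rw [th, h, neg_div, div_self hr, rr_neg_one]

/-- The key fact: an element `z` whose `2^j`-th power has the value of `r ^ D` (`r ^ 2` a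
uniformizer) and with tame character `± 1` has the value of `r ^ (D / 2^j)`. -/
theorem two_adic (hτ : τ ∈ iner K w) (h2 : w.valuation 2 = 1) {r : Om} (hr : r ≠ 0)
    (hτr : τ r = -r) : ∀ (j : ℕ) {z : Om} (_ : z ≠ 0) (D : ℤ),
    w.valuation z ^ (2 ^ j) = w.valuation r ^ D → th w τ z ^ 2 = 1 →
    ∃ D' : ℤ, D = 2 ^ j * D' ∧ w.valuation z = w.valuation r ^ D'
  | 0, z, _, D, h, _ => ⟨D, by rw [pow_zero, one_mul], by rwa [pow_zero, pow_one] at h⟩
  | j + 1, z, hz, D, h, hth => by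
    rcases Int.even_or_odd' D with ⟨D1, rfl | rfl⟩
    · have h3 : w.valuation z ^ (2 ^ j) = w.valuation r ^ D1 := by
        have h4 : (w.valuation z ^ (2 ^ j)) ^ 2 = (w.valuation r ^ D1) ^ 2 := by
          rw [← pow_mul, ← pow_succ, h, ← zpow_natCast, ← zpow_mul, mul_comm D1]
          rfl
        exact (pow_left_inj₀ zero_le zero_le two_ne_zero).1 h4
      obtain ⟨D', rfl, h4⟩ := two_adic hτ h2 hr hτr j hz D1 h3 hth
      exact ⟨D', by ring, h4⟩
    · exfalso
      have h3 : th w τ (z ^ (2 ^ (j + 1))) = th w τ (r ^ (2 * D1 + 1)) :=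
        th_congr hτ (pow_ne_zero _ hz) (zpow_ne_zero _ hr) (by rw [map_pow, map_zpow₀, h])
      rw [th_pow hτ hz, th_zpow hτ hr, th_neg hr hτr, pow_succ', pow_mul, hth, one_pow,
        Odd.neg_one_zpow ⟨D1, rfl⟩] at h3
      exact neg_one_ne_one h2 h3.symm

end alg

end Pool.Agent.SmN.R
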